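import Mathlib
import Pool.Agent.K7.H74.WS.Cnt
import Pool.Agent.K7.H74.WS.Bc

set_option autoImplicit false

/-! Waring's problem with shifts: the mean deviation of the product, for all frequencies. -/

namespace Pool.Agent.K7.H55.MS
open Finset MeasureTheory Complex Pool.Agent.K7.H74.WS

/-- one block -/
lemma DB_mid {m P : ℕ} (hP : 1 ≤ P) {α v L Q : ℝ} (hα : α ≠ 0) (hv : 0 < v) (hαv : |α| * v ^ (m + 2) = 1)
    (hQ : 0 ≤ Q) (hPQ : (P : ℝ) ≤ Q ^ 2) (hL : 1 + Real.log (2 * P) ≤ L) (hL1 : 1 ≤ L) :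
    DB (m + 2) P α ≤ 4 * L * (Q + v) := by
  have hα0 : 0 < |α| := abs_pos.2 hα
  have hP0 : (0 : ℝ) < P := by exact_mod_cast hP
  rcases le_or_gt (P : ℝ) v with h | h
  · have h1 : DB (m + 2) P α ≤ ∫ ξ in (0 : ℝ)..1, (4 * P : ℝ) := by
      unfold DB
      apply intervalIntegral.integral_mono_on zero_le_one
      · exact ((S_cont2 _ _ α).sub continuous_const).norm.intervalIntegrable _ _
      · exact intervalIntegrable_const
      · intro ξ _
        have h2 := norm_sub_le (S (m + 2) P α ξ) (M (m + 2) P α)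
        have h3 := S_le (m + 2) P α ξ
        have h4 := M_le' (m + 2) P α
        linarith
    have h2 : DB (m + 2) P α ≤ 4 * P := by simpa using h1
    have h3 : 4 * (P : ℝ) ≤ 4 * (Q + v) := by linarith
    have h4 : 4 * (Q + v) ≤ 4 * L * (Q + v) := by
      apply mul_le_mul_of_nonneg_right _ (by positivity)
      linarith
    linarith
  · have h1 := DB_sq hP hα (m := m)
    have h2 : (1 + Real.log (2 * P)) / (|α| * (P : ℝ) ^ m) ≤ L * v ^ 2 := by
      rw [div_le_iff₀ (by positivity)]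
      have h3 : 1 ≤ v ^ 2 * (|α| * (P : ℝ) ^ m) := by
        calc 1 = |α| * v ^ (m + 2) := hαv.symm
          _ = v ^ 2 * (|α| * v ^ m) := by ring
          _ ≤ v ^ 2 * (|α| * (P : ℝ) ^ m) := by gcongr
      calc 1 + Real.log (2 * P) ≤ L := hL
        _ = L * 1 := (mul_one _).symm
        _ ≤ L * (v ^ 2 * (|α| * (P : ℝ) ^ m)) := mul_le_mul_of_nonneg_left h3 (by linarith)
        _ = _ := by ring
    have h3 : DB (m + 2) P α ^ 2 ≤ (4 * L * (Q + v)) ^ 2 := by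
      have h4 : 0 ≤ Q * v := by positivity
      have h5 : L ≤ L ^ 2 := by nlinarith
      have h6 : Q ^ 2 ≤ L ^ 2 * Q ^ 2 := by nlinarith [sq_nonneg Q, one_le_pow₀ hL1 (n := 2)]
      have h7 : L * v ^ 2 ≤ L ^ 2 * v ^ 2 := mul_le_mul_of_nonneg_right h5 (sq_nonneg _)
      have h8 : 0 ≤ L ^ 2 * (Q * v) := by positivity
      have h9 : 0 ≤ L ^ 2 * Q ^ 2 := by positivity
      have h10 : 0 ≤ L ^ 2 * v ^ 2 := by positivity
      nlinarith
    exact (le_abs_self _).trans (abs_le_of_sq_le_sq h3 (by positivity))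

/-- the logarithmic factor -/
noncomputable def LM (J : ℕ) : ℝ := 4 + 8 * J * (J + 1)

lemma LM_pos (J : ℕ) : 0 < LM J := by unfold LM; positivity

lemma LM_le (J : ℕ) : LM J ≤ 12 * ((J : ℝ) + 1) ^ 2 := by
  unfold LM
  have : (0 : ℝ) ≤ J := Nat.cast_nonneg _
  nlinarith

lemma DF_mid {m J : ℕ} {α v Q : ℝ} (hα : α ≠ 0) (hv : 0 < v) (hαv : |α| * v ^ (m + 2) = 1)
    (hQ : 1 ≤ Q) (hJ : (3 : ℝ) ^ J = Q ^ 2) : DF (m + 2) J α + ‖MF (m + 2) J α‖ ≤ LM J * (Q + v) := by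
  have h1 : ∑ i ∈ range J, DB (m + 2) (3 ^ i) α ≤ ∑ _i ∈ range J, 4 * (2 * J + 2) * (Q + v) := by
    apply sum_le_sum
    intro i hi
    rw [mem_range] at hi
    refine DB_mid (Nat.one_le_pow _ _ (by norm_num)) hα hv hαv (by linarith) ?_ (log_block hi)
      (by have : (0 : ℝ) ≤ J := Nat.cast_nonneg _; linarith)
    rw [← hJ]
    push_cast
    exact pow_le_pow_right₀ (by norm_num) hi.le
  rw [sum_const, card_range, nsmul_eq_mul] at h1
  have h2 := DF_le_sum (m + 2) J α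
  have hM : ‖MF (m + 2) J α‖ ≤ 2 * v := by
    rcases le_or_gt v (3 ^ J) with h | h
    · have h3 := MF_pos (J := J) (abs_pos.2 hα) hv hαv h
      rcases abs_choice α with h4 | h4
      · rwa [h4] at h3
      · rw [h4, MF_neg] at h3
        exact h3
    · have h3 := MF_le' (m + 2) J α
      linarith
  have h3 : 2 ≤ 2 * Q := by linarith
  unfold LM
  have e : (4 + 8 * (J : ℝ) * (J + 1)) * (Q + v) = 4 * (Q + v) + J * (4 * (2 * J + 2) * (Q + v)) := by ring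
  rw [e]
  linarith

lemma dl_mean_pow (k J s : ℕ) (α : ℝ) :
    ∫ ξ, dl k J s α ξ ∂(cube s) ≤ (DF k J α + ‖MF k J α‖) ^ s - ‖MF k J α‖ ^ s :=
  prod_dev s (SF_cont2 k J α) (SF_le k J α) (MF k J α)

lemma dl_mean_far {m J s : ℕ} {α v Q : ℝ} (hα : α ≠ 0) (hv : 0 < v) (hαv : |α| * v ^ (m + 2) = 1)
    (hQ : 1 ≤ Q) (hJ : (3 : ℝ) ^ J = Q ^ 2) : ∫ ξ, dl (m + 2) J s α ξ ∂(cube s) ≤ (LM J * (Q + v)) ^ s := by
  have h1 := dl_mean_pow (m + 2) J s α
  have h2 : 0 ≤ ‖MF (m + 2) J α‖ ^ s := by positivity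
  have h3 : (DF (m + 2) J α + ‖MF (m + 2) J α‖) ^ s ≤ (LM J * (Q + v)) ^ s :=
    pow_le_pow_left₀ (add_nonneg (DF_nonneg _ _ _) (norm_nonneg _)) (DF_mid hα hv hαv hQ hJ) _
  linarith

lemma dl_mean_near {m J r : ℕ} (α : ℝ) {q : ℝ} (hq : 1 ≤ q) (hJ : (3 : ℝ) ^ J = q ^ 4) :
    ∫ ξ, dl (m + 2) J (r + 1) α ξ ∂(cube (r + 1)) ≤ (r + 1) * ((LJ m J * q ^ 3) * (2 * LJ m J * q ^ 4) ^ r) := by
  have h1 := dl_mean_pow (m + 2) J (r + 1) α
  have hD0 := DF_nonneg (m + 2) J α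
  have hN0 := norm_nonneg (MF (m + 2) J α)
  have hL := LJ_ge m J
  have h2 := pow_diff hD0 hN0 r
  have h3 := DF_all' (m := m) α hq hJ
  have h4 := MF_le' (m + 2) J α
  rw [hJ] at h4
  have h5 : q ^ 3 ≤ q ^ 4 := pow_le_pow_right₀ hq (by norm_num)
  have hq4 : 0 < q ^ 4 := by positivity
  have h6 : DF (m + 2) J α + ‖MF (m + 2) J α‖ ≤ 2 * LJ m J * q ^ 4 := by
    have h7 : LJ m J * q ^ 3 ≤ LJ m J * q ^ 4 := mul_le_mul_of_nonneg_left h5 (by linarith)
    have h8 : q ^ 4 ≤ LJ m J * q ^ 4 := by nlinarith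
    linarith
  refine h1.trans (h2.trans ?_)
  apply mul_le_mul_of_nonneg_left _ (by positivity)
  exact mul_le_mul h3 (pow_le_pow_left₀ (by positivity) h6 _) (by positivity) (by positivity)

end Pool.Agent.K7.H55.MS
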