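import Mathlib

set_option autoImplicit false

/-! Sums of `u` many `k`-th powers with diminishing ranges: a large and well distributed set of sums. -/

namespace Pool.Agent.K7.H55.MS
open Finset

/-- `A` is a large and evenly distributed set of sums of `u` many `k`-th powers up to `Y ^ k` -/
structure Good (k u : ℕ) (l c C Y : ℝ) (A : Finset ℕ) : Prop where
  rep : ∀ a ∈ A, ∃ x : Fin u → ℕ, a = ∑ j, x j ^ k
  le : ∀ a ∈ A, (a : ℝ) ≤ Y ^ k
  many : c * Y ^ k ≤ A.card * (Y ^ k) ^ l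
  thin : ∀ y h : ℝ, 0 ≤ h → ((A.filter fun a : ℕ => y ≤ a ∧ (a : ℝ) ≤ y + h).card : ℝ) ≤ C * (1 + h / (Y ^ k) ^ l)

lemma base (k : ℕ) {Y : ℝ} (hY : 1 ≤ Y) : Good k 0 1 1 1 Y {0} := by
  have hY0 : 0 < Y ^ k := by positivity
  refine ⟨?_, ?_, ?_, ?_⟩
  · intro a ha
    rw [mem_singleton] at ha
    exact ⟨fun _ => 0, by simp [ha]⟩
  · intro a ha
    rw [mem_singleton] at ha
    rw [ha]
    simpa using hY0.le
  · rw [Real.rpow_one]
    simp
  · intro y h hh
    have h1 : ((({0} : Finset ℕ).filter fun a : ℕ => y ≤ a ∧ (a : ℝ) ≤ y + h).card : ℝ) ≤ 1 := by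
      have := card_filter_le ({0} : Finset ℕ) (fun a : ℕ => y ≤ a ∧ (a : ℝ) ≤ y + h)
      rw [card_singleton] at this
      exact_mod_cast this
    have h2 : 0 ≤ h / (Y ^ k) ^ (1 : ℝ) := by positivity
    linarith

/-- the gaps between the powers -/
lemma gap {k : ℕ} (hk : 1 ≤ k) {x x' g : ℝ} (hx0 : 0 ≤ x) (hx : x ≤ x') (hg : g ≤ x ^ (k - 1)) : (x' - x) * g ≤ x' ^ k - x ^ k := by
  obtain ⟨j, rfl⟩ : ∃ j, k = j + 1 := ⟨k - 1, by omega⟩
  rw [Nat.add_sub_cancel] at hg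
  have h1 : x ^ j ≤ x' ^ j := pow_le_pow_left₀ hx0 hx _
  have h2 : (x' - x) * g ≤ (x' - x) * x ^ j := mul_le_mul_of_nonneg_left hg (by linarith)
  have h3 : x' * x ^ j ≤ x' * x' ^ j := mul_le_mul_of_nonneg_left h1 (by linarith)
  rw [pow_succ, pow_succ]
  linarith

lemma step {k u : ℕ} (hk : 2 ≤ k) {l c C Y V : ℝ} (hl0 : 0 ≤ l) (hl1 : l ≤ 1) (hc : 0 < c) (hC : 0 < C) (hY : 8 ≤ Y)
    (hV1 : 1 ≤ V) (hV : V = (1 / 16) ^ k * Y ^ (k - 1)) {A' : Finset ℕ}
    {Y' : ℝ} (hYV : Y' ^ k = V) (H : Good k u l c C Y' A') :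
    ∃ A, Good k (u + 1) (l * (1 - 1 / (k : ℝ))) (c / (8 * 16 ^ k)) (6 * C * 16 ^ k) Y A := by
  classical
  have hY0 : 0 < Y := by linarith
  have hk1 : 1 ≤ k := by omega
  have hV0 : 0 < V := by linarith
  set P : ℕ := ⌊Y / 4⌋₊ with hP
  have hP1 : (P : ℝ) ≤ Y / 4 := Nat.floor_le (by positivity)
  have hP2 : Y / 8 ≤ P := by
    have := Nat.lt_floor_add_one (Y / 4)
    rw [← hP] at this
    linarith
  set D : ℝ := (Y ^ (k - 1)) ^ l with hD
  have hD0 : 0 < D := Real.rpow_pos_of_pos (by positivity) _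
  have hDe : (Y ^ k) ^ (l * (1 - 1 / (k : ℝ))) = D := by
    rw [hD, ← Real.rpow_natCast, ← Real.rpow_natCast, ← Real.rpow_mul hY0.le, ← Real.rpow_mul hY0.le]
    congr 1
    have : (k : ℝ) ≠ 0 := by positivity
    rw [Nat.cast_sub hk1, Nat.cast_one]
    field_simp
  have h16 : (0 : ℝ) < (1 / 16) ^ k := by positivity
  have h16' : ((1 : ℝ) / 16) ^ k ≤ 1 := pow_le_one₀ (by norm_num) (by norm_num)
  have hYk : 0 < Y ^ (k - 1) := by positivity
  have hVl : 0 < V ^ l := Real.rpow_pos_of_pos hV0 _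
  have hVD : V ^ l ≤ D := by
    apply Real.rpow_le_rpow hV0.le _ hl0
    rw [hV]
    nlinarith
  have hDV : (1 / 16) ^ k * D ≤ V ^ l := by
    rw [hV, Real.mul_rpow h16.le hYk.le]
    apply mul_le_mul_of_nonneg_right _ hD0.le
    have := Real.rpow_le_rpow_of_exponent_ge h16 h16' hl1
    rwa [Real.rpow_one] at this
  -- the gap
  set g : ℝ := (Y / 8) ^ (k - 1) with hg
  have hg0 : 0 < g := by positivity
  have hVg : 2 * V ≤ g := by
    have e0 : (Y / 8) ^ (k - 1) = ((8 : ℝ) ^ (k - 1))⁻¹ * Y ^ (k - 1) := by rw [div_pow, div_eq_inv_mul]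
    rw [hV, hg, e0, ← mul_assoc]
    apply mul_le_mul_of_nonneg_right _ hYk.le
    have e1 : ((1 : ℝ) / 16) ^ k = (1 / 16) ^ (k - 1) * (1 / 16) := by
      rw [← pow_succ]; congr 1; omega
    rw [e1]
    have e2 : ((1 : ℝ) / 16) ^ (k - 1) ≤ (1 / 8) ^ (k - 1) := pow_le_pow_left₀ (by norm_num) (by norm_num) _
    have e3 : ((8 : ℝ) ^ (k - 1))⁻¹ = (1 / 8) ^ (k - 1) := by rw [one_div, inv_pow]
    rw [e3]
    have e4 : (0 : ℝ) < (1 / 8) ^ (k - 1) := by positivity
    linarith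
  have hgap : ∀ x x' : ℕ, P ≤ x → x ≤ x' → ((x' : ℝ) - x) * g ≤ (x' : ℝ) ^ k - (x : ℝ) ^ k := by
    intro x x' h1 h2
    apply gap hk1 (Nat.cast_nonneg _) (by exact_mod_cast h2)
    have h3 : (P : ℝ) ≤ x := by exact_mod_cast h1
    exact pow_le_pow_left₀ (by positivity) (hP2.trans h3) _
  have hA'V : ∀ a ∈ A', (a : ℝ) ≤ V := fun a ha => hYV ▸ H.le a ha
  set f : ℕ × ℕ → ℕ := fun p => p.1 ^ k + p.2 with hf
  have hinj : Set.InjOn f (Ico P (2 * P) ×ˢ A' : Finset (ℕ × ℕ)) := by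
    have key : ∀ x a x' a' : ℕ, P ≤ x → a' ∈ A' → x < x' → a ∈ A' → x ^ k + a = x' ^ k + a' → False := by
      intro x a x' a' h1 h2 h3 h4 h5
      have h6 := hgap x x' h1 h3.le
      have h7 : (1 : ℝ) ≤ (x' : ℝ) - x := by
        have : (x : ℝ) + 1 ≤ x' := by exact_mod_cast h3
        linarith
      have h8 : g ≤ ((x' : ℝ) - x) * g := by nlinarith
      have h9 : (x : ℝ) ^ k + a = (x' : ℝ) ^ k + a' := by exact_mod_cast h5
      have h10 := hA'V a h4
      have h11 : (0 : ℝ) ≤ a' := Nat.cast_nonneg _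
      linarith
    rintro ⟨x, a⟩ h1 ⟨x', a'⟩ h2 h3
    rw [mem_coe, mem_product, mem_Ico] at h1 h2
    simp only [hf] at h1 h2 h3
    rcases lt_trichotomy x x' with h | h | h
    · exact (key x a x' a' h1.1.1 h2.2 h h1.2 h3).elim
    · subst h
      have : a = a' := by omega
      rw [this]
    · exact (key x' a' x a h2.1.1 h1.2 h h2.2 h3.symm).elim
  have hcard : ((Ico P (2 * P) ×ˢ A').image f).card = P * A'.card := by
    rw [card_image_of_injOn hinj, card_product, Nat.card_Ico]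
    congr 1
    omega
  have hmany := H.many
  rw [hYV] at hmany
  have hthin := H.thin
  rw [hYV] at hthin
  refine ⟨(Ico P (2 * P) ×ˢ A').image f, ?_, ?_, ?_, ?_⟩
  · intro b hb
    rw [mem_image] at hb
    obtain ⟨⟨x, a⟩, h1, h2⟩ := hb
    rw [mem_product, mem_Ico] at h1
    obtain ⟨z, hz⟩ := H.rep a h1.2
    refine ⟨Fin.cons x z, ?_⟩
    rw [Fin.sum_univ_succ]
    simp only [Fin.cons_zero, Fin.cons_succ]
    rw [← h2, hf]
    simp only
    rw [hz]
  · intro b hb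
    rw [mem_image] at hb
    obtain ⟨⟨x, a⟩, h1, h2⟩ := hb
    rw [mem_product, mem_Ico] at h1
    simp only at h1
    have h3 : (x : ℝ) ≤ Y / 2 := by
      have : (x : ℝ) ≤ 2 * P := by exact_mod_cast h1.1.2.le
      linarith
    have h4 : (x : ℝ) ^ k ≤ (Y / 2) ^ k := pow_le_pow_left₀ (Nat.cast_nonneg _) h3 _
    have h5 : (Y / 2) ^ k ≤ Y ^ k / 2 := by
      rw [div_pow]
      apply div_le_div_of_nonneg_left (by positivity) (by norm_num)
      calc (2 : ℝ) = 2 ^ 1 := by norm_num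
        _ ≤ 2 ^ k := pow_le_pow_right₀ (by norm_num) hk1
    have h6 : V ≤ Y ^ k / 2 := by
      rw [hV]
      have e1 : Y ^ k = Y ^ (k - 1) * Y := by rw [← pow_succ]; congr 1; omega
      rw [e1]
      nlinarith
    have h7 := hA'V a h1.2
    have h8 : (b : ℝ) = (x : ℝ) ^ k + a := by rw [← h2, hf]; push_cast; ring
    rw [h8]
    linarith
  · rw [hcard, hDe]
    push_cast
    have h1 : c * V ≤ A'.card * D := hmany.trans (mul_le_mul_of_nonneg_left hVD (Nat.cast_nonneg _))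
    have e1 : Y ^ k = Y ^ (k - 1) * Y := by rw [← pow_succ]; congr 1; omega
    have e2 : c / (8 * 16 ^ k) * Y ^ k = (Y / 8) * (c * V) := by
      rw [hV, e1, one_div, inv_pow]
      field_simp
    rw [e2]
    calc Y / 8 * (c * V) ≤ P * (A'.card * D) := mul_le_mul hP2 h1 (by positivity) (Nat.cast_nonneg _)
      _ = _ := by ring
  · intro y h hh
    rw [hDe]
    set N : ℕ → ℕ := fun x => (A'.filter fun a : ℕ => y - (x : ℝ) ^ k ≤ a ∧ (a : ℝ) ≤ y - (x : ℝ) ^ k + h).card with hN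
    have h1 : (((Ico P (2 * P) ×ˢ A').image f).filter fun a : ℕ => y ≤ a ∧ (a : ℝ) ≤ y + h).card ≤
        ∑ x ∈ Ico P (2 * P), N x := by
      have e1 : (((Ico P (2 * P) ×ˢ A').image f).filter fun a : ℕ => y ≤ a ∧ (a : ℝ) ≤ y + h) ⊆
          (Ico P (2 * P)).biUnion fun x => (A'.filter fun a : ℕ => y - (x : ℝ) ^ k ≤ a ∧ (a : ℝ) ≤ y - (x : ℝ) ^ k + h).image
            fun a => x ^ k + a := by
        intro b hb
        rw [mem_filter, mem_image] at hb
        obtain ⟨⟨⟨x, a⟩, h2, h3⟩, h4⟩ := hb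
        rw [mem_product] at h2
        rw [mem_biUnion]
        refine ⟨x, h2.1, ?_⟩
        rw [mem_image]
        refine ⟨a, ?_, h3⟩
        rw [mem_filter]
        refine ⟨h2.2, ?_⟩
        have h8 : (b : ℝ) = (x : ℝ) ^ k + a := by rw [← h3, hf]; push_cast; ring
        rw [h8] at h4
        constructor <;> linarith [h4.1, h4.2]
      refine (card_le_card e1).trans (card_biUnion_le.trans ?_)
      exact sum_le_sum fun x _ => card_image_le
    set Xs : Finset ℕ := (Ico P (2 * P)).filter fun x => N x ≠ 0 with hXs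
    have h2 : ∑ x ∈ Ico P (2 * P), N x = ∑ x ∈ Xs, N x := by
      rw [hXs, sum_filter_ne_zero]
    have hXc : (Xs.card : ℝ) ≤ 2 + h / V := by
      have hhV : 0 ≤ h / V := by positivity
      rcases Xs.eq_empty_or_nonempty with h3 | h3
      · rw [h3, card_empty, Nat.cast_zero]; linarith
      · set x0 := Xs.min' h3 with hx0
        have hx0m : x0 ∈ Xs := min'_mem _ _
        have hsub : Xs ⊆ Icc x0 (x0 + ⌊1 + h / V⌋₊) := by
          intro x hx
          have h4 : x0 ≤ x := min'_le _ _ hx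
          rw [mem_Icc]
          refine ⟨h4, ?_⟩
          have g1 : P ≤ x0 := (mem_Ico.1 (mem_filter.1 hx0m).1).1
          have g2 := hgap x0 x g1 h4
          obtain ⟨a, ha⟩ := card_pos.1 (Nat.pos_of_ne_zero (mem_filter.1 hx).2)
          obtain ⟨a0, ha0⟩ := card_pos.1 (Nat.pos_of_ne_zero (mem_filter.1 hx0m).2)
          rw [mem_filter] at ha ha0
          have g3 : (0 : ℝ) ≤ a := Nat.cast_nonneg _
          have g4 := hA'V a0 ha0.1
          have g5 : (x : ℝ) ^ k - (x0 : ℝ) ^ k ≤ h + V := by linarith [ha.2.2, ha0.2.1]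
          have g6 : ((x : ℝ) - x0) ≤ 1 + h / V := by
            have g7 : (0 : ℝ) ≤ (x : ℝ) - x0 := by
              have : (x0 : ℝ) ≤ x := by exact_mod_cast h4
              linarith
            have g8 : ((x : ℝ) - x0) * (2 * V) ≤ h + V := (mul_le_mul_of_nonneg_left hVg g7).trans (g2.trans g5)
            rw [← sub_le_iff_le_add', le_div_iff₀ hV0]
            nlinarith
          have g9 : x - x0 ≤ ⌊1 + h / V⌋₊ := by
            apply Nat.le_floor
            rw [Nat.cast_sub h4]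
            exact g6
          omega
        have h5 := card_le_card hsub
        rw [Nat.card_Icc] at h5
        have h6 : (⌊1 + h / V⌋₊ : ℝ) ≤ 1 + h / V := Nat.floor_le (by positivity)
        have h7 : (Xs.card : ℝ) ≤ (⌊1 + h / V⌋₊ : ℝ) + 1 := by
          have : Xs.card ≤ ⌊1 + h / V⌋₊ + 1 := by omega
          exact_mod_cast this
        linarith
    -- bounds for `N`
    have hN1 : ∀ x, (N x : ℝ) ≤ C * (1 + h / V ^ l) := fun x => hthin _ h hh
    have hA'c : (A'.card : ℝ) ≤ C * (2 * (V / V ^ l)) := by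
      have h3 := hthin 0 V hV0.le
      have h4 : (A'.filter fun a : ℕ => (0 : ℝ) ≤ a ∧ (a : ℝ) ≤ 0 + V) = A' := by
        rw [filter_eq_self]
        intro a ha
        exact ⟨Nat.cast_nonneg _, by rw [zero_add]; exact hA'V a ha⟩
      rw [h4] at h3
      refine h3.trans (mul_le_mul_of_nonneg_left ?_ hC.le)
      have h5 : 1 ≤ V / V ^ l := by
        rw [le_div_iff₀ hVl, one_mul]
        have := Real.rpow_le_rpow_of_exponent_le hV1 hl1
        rwa [Real.rpow_one] at this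
      linarith
    have hN2 : ∀ x, (N x : ℝ) ≤ C * (2 * (V / V ^ l)) := fun x => by
      refine le_trans ?_ hA'c
      exact_mod_cast card_filter_le _ _
    have htot : ((∑ x ∈ Xs, N x : ℕ) : ℝ) ≤ 6 * C * (1 + h / V ^ l) := by
      push_cast
      have hhl : 0 ≤ h / V ^ l := by positivity
      rcases le_or_gt h V with h3 | h3
      · have h4 : ∑ x ∈ Xs, (N x : ℝ) ≤ Xs.card * (C * (1 + h / V ^ l)) := by
          rw [← nsmul_eq_mul]
          exact sum_le_card_nsmul _ _ _ fun x _ => hN1 x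
        have h5 : h / V ≤ 1 := (div_le_one hV0).2 h3
        have h6 : (Xs.card : ℝ) ≤ 6 := by linarith
        calc ∑ x ∈ Xs, (N x : ℝ) ≤ Xs.card * (C * (1 + h / V ^ l)) := h4
          _ ≤ 6 * (C * (1 + h / V ^ l)) := mul_le_mul_of_nonneg_right h6 (by positivity)
          _ = _ := by ring
      · have h4 : ∑ x ∈ Xs, (N x : ℝ) ≤ Xs.card * (C * (2 * (V / V ^ l))) := by
          rw [← nsmul_eq_mul]
          exact sum_le_card_nsmul _ _ _ fun x _ => hN2 x
        have h5 : 1 ≤ h / V := (one_le_div hV0).2 h3.le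
        have h6 : (Xs.card : ℝ) ≤ 3 * (h / V) := by linarith
        calc ∑ x ∈ Xs, (N x : ℝ) ≤ Xs.card * (C * (2 * (V / V ^ l))) := h4
          _ ≤ 3 * (h / V) * (C * (2 * (V / V ^ l))) := mul_le_mul_of_nonneg_right h6 (by positivity)
          _ = 6 * C * (h / V ^ l) := by field_simp; ring
          _ ≤ _ := by apply mul_le_mul_of_nonneg_left _ (by positivity); linarith
    have hfin : 1 + h / V ^ l ≤ 16 ^ k * (1 + h / D) := by
      have e1 : h / V ^ l ≤ 16 ^ k * (h / D) := by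
        have e2 : (16 : ℝ) ^ k * (h / D) = h / ((1 / 16) ^ k * D) := by
          rw [one_div, inv_pow]
          field_simp
        rw [e2]
        exact div_le_div_of_nonneg_left hh (by positivity) hDV
      have e3 : (1 : ℝ) ≤ 16 ^ k := one_le_pow₀ (by norm_num)
      linarith
    calc ((((Ico P (2 * P) ×ˢ A').image f).filter fun a : ℕ => y ≤ a ∧ (a : ℝ) ≤ y + h).card : ℝ)
        ≤ ((∑ x ∈ Xs, N x : ℕ) : ℝ) := by rw [← h2]; exact_mod_cast h1
      _ ≤ 6 * C * (1 + h / V ^ l) := htot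
      _ ≤ 6 * C * (16 ^ k * (1 + h / D)) := mul_le_mul_of_nonneg_left hfin (by positivity)
      _ = _ := by ring

theorem good {k : ℕ} (hk : 2 ≤ k) (u : ℕ) : ∃ c C Y0 : ℝ, 0 < c ∧ 0 < C ∧ 1 ≤ Y0 ∧
    ∀ Y : ℝ, Y0 ≤ Y → ∃ A, Good k u ((1 - 1 / (k : ℝ)) ^ u) c C Y A := by
  have hk0 : (0 : ℝ) < k := by positivity
  have hk1 : (2 : ℝ) ≤ k := by exact_mod_cast hk
  have hb0 : 0 ≤ 1 - 1 / (k : ℝ) := by
    rw [sub_nonneg, div_le_one hk0]; linarith
  have hb1 : 1 - 1 / (k : ℝ) ≤ 1 := by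
    have : 0 < 1 / (k : ℝ) := by positivity
    linarith
  induction u with
  | zero =>
    refine ⟨1, 1, 1, one_pos, one_pos, le_refl _, fun Y hY => ⟨{0}, ?_⟩⟩
    rw [pow_zero]
    exact base k hY
  | succ u ih =>
    obtain ⟨c, C, Y0, hc, hC, hY0, H⟩ := ih
    refine ⟨c / (8 * 16 ^ k), 6 * C * 16 ^ k, max 8 ((16 * Y0) ^ k), by positivity, by positivity,
      (by norm_num : (1 : ℝ) ≤ 8).trans (le_max_left _ _), fun Y hY => ?_⟩
    have hY8 : 8 ≤ Y := (le_max_left _ _).trans hY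
    have hYp : (16 * Y0) ^ k ≤ Y := (le_max_right _ _).trans hY
    have hYpos : 0 < Y := by linarith
    set r : ℝ := (Y ^ (k - 1)) ^ (1 / (k : ℝ)) with hr
    have hr0 : 0 < r := Real.rpow_pos_of_pos (by positivity) _
    have hrk : r ^ k = Y ^ (k - 1) := by
      rw [hr, ← Real.rpow_natCast, ← Real.rpow_mul (by positivity), one_div_mul_cancel hk0.ne', Real.rpow_one]
    have hr1 : Y0 ≤ 1 / 16 * r := by
      by_contra h
      push Not at h
      have h1 : r < 16 * Y0 := by linarith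
      have h2 : r ^ k < (16 * Y0) ^ k := pow_lt_pow_left₀ h1 hr0.le (by omega)
      have h3 : Y ≤ Y ^ (k - 1) := by
        calc Y = Y ^ 1 := (pow_one _).symm
          _ ≤ Y ^ (k - 1) := pow_le_pow_right₀ (by linarith) (by omega)
      linarith
    obtain ⟨A', hA'⟩ := H _ hr1
    have hV : (1 / 16 * r) ^ k = (1 / 16) ^ k * Y ^ (k - 1) := by rw [mul_pow, hrk]
    have hV1 : 1 ≤ (1 / 16 * r) ^ k := one_le_pow₀ (hY0.trans hr1)
    rw [pow_succ]
    exact step hk (pow_nonneg hb0 _) (pow_le_one₀ hb0 hb1) hc hC hY8 hV1 hV rfl hA'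

end Pool.Agent.K7.H55.MS
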