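import Mathlib
import Pool.Agent.K7.H55.MS.Set
import Pool.Agent.K7.H55.MS.Mid

set_option autoImplicit false

/-! The exponential sum over a well distributed set of integers, in mean square. -/

namespace Pool.Agent.K7.H55.MS
open Finset MeasureTheory Complex Pool.Agent.K7.H74.WS

/-- the exponential sum over `A` -/
noncomputable def T (A : Finset ℕ) (α : ℝ) : ℂ := ∑ a ∈ A, e (α * (a : ℝ))

lemma T_cont (A : Finset ℕ) : Continuous (T A) := by
  unfold T
  exact continuous_finsetSum _ fun n _ => e_cont.comp (by fun_prop)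

lemma T_le (A : Finset ℕ) (α : ℝ) : ‖T A α‖ ≤ A.card := by
  unfold T
  refine (norm_sum_le _ _).trans ?_
  rw [sum_congr rfl (fun x _ => norm_e _), sum_const, nsmul_eq_mul, mul_one]

lemma w_scale {ρ : ℝ} (hρ : 0 < ρ) (y : ℝ) : ∫ β : ℝ, (W (β / ρ) : ℂ) * e (β * y) = ρ * (w (ρ * y) : ℂ) := by
  have h1 := Measure.integral_comp_div (fun γ : ℝ => (W γ : ℂ) * e (γ * (ρ * y))) ρ
  rw [← w_eq, abs_of_pos hρ] at h1
  have h2 : ∀ β : ℝ, (W (β / ρ) : ℂ) * e (β / ρ * (ρ * y)) = (W (β / ρ) : ℂ) * e (β * y) := by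
    intro β
    congr 2
    field_simp
  simp_rw [h2] at h1
  rw [h1]
  simp

lemma We_scale_int {ρ : ℝ} (hρ : 0 < ρ) (y : ℝ) : Integrable fun β : ℝ => (W (β / ρ) : ℂ) * e (β * y) := by
  refine (W_int.comp_div hρ.ne').mono' ?_ (Filter.Eventually.of_forall fun β => ?_)
  · have h1 : Continuous fun β : ℝ => (W (β / ρ) : ℂ) := continuous_ofReal.comp (W_cont.comp (by fun_prop))
    have h2 : Continuous fun β : ℝ => e (β * y) := e_cont.comp (by fun_prop)
    exact (h1.mul h2).aestronglyMeasurable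
  · rw [norm_mul, norm_e, mul_one, Complex.norm_of_nonneg (W_nonneg _)]

/-- the mean square with a Fejér weight -/
theorem T_mean (A : Finset ℕ) {ρ : ℝ} (hρ : 0 < ρ) (η : ℝ) :
    ∫ β : ℝ, W (β / ρ) * ‖T A (β / η)‖ ^ 2 = ρ * ∑ a ∈ A, ∑ b ∈ A, w (ρ * (((a : ℝ) - b) / η)) := by
  have h1 : ((∫ β : ℝ, W (β / ρ) * ‖T A (β / η)‖ ^ 2 : ℝ) : ℂ) = ((ρ * ∑ a ∈ A, ∑ b ∈ A, w (ρ * (((a : ℝ) - b) / η)) : ℝ) : ℂ) := by
    rw [← integral_complex_ofReal]
    have e1 : ∀ β : ℝ, ((W (β / ρ) * ‖T A (β / η)‖ ^ 2 : ℝ) : ℂ) =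
        ∑ a ∈ A, ∑ b ∈ A, (W (β / ρ) : ℂ) * e (β * (((a : ℝ) - b) / η)) := by
      intro β
      have e2 : ((W (β / ρ) * ‖T A (β / η)‖ ^ 2 : ℝ) : ℂ) = (W (β / ρ) : ℂ) * (T A (β / η) * (starRingEnd ℂ) (T A (β / η))) := by
        rw [Complex.mul_conj, Complex.normSq_eq_norm_sq]
        push_cast
        ring
      rw [e2]
      unfold T
      rw [map_sum, sum_mul_sum, mul_sum]
      apply sum_congr rfl
      intro n _
      rw [mul_sum]
      apply sum_congr rfl
      intro n' _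
      rw [← e_neg, ← e_add]
      congr 2
      ring
    simp_rw [e1]
    rw [integral_finsetSum _ fun n _ => integrable_finsetSum _ fun n' _ => We_scale_int hρ _]
    push_cast
    rw [mul_sum]
    apply sum_congr rfl
    intro a _
    rw [integral_finsetSum _ fun n' _ => We_scale_int hρ _, mul_sum]
    apply sum_congr rfl
    intro b _
    exact w_scale hρ _
  exact_mod_cast h1

lemma T_mean_one (A : Finset ℕ) {η : ℝ} (hη : 0 < η) (hη1 : η ≤ 1) :
    ∫ β : ℝ, W β * ‖T A (β / η)‖ ^ 2 = A.card := by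
  have h1 := T_mean A one_pos η
  simp only [div_one, one_mul] at h1
  rw [h1]
  have h2 : ∀ a ∈ A, ∑ b ∈ A, w (((a : ℝ) - b) / η) = 1 := by
    intro a ha
    rw [sum_eq_single a]
    · rw [sub_self, zero_div]
      unfold w; simp
    · intro b _ hb
      apply w_zero
      rw [abs_div, abs_of_pos hη, le_div_iff₀ hη, one_mul]
      refine hη1.trans ?_
      have h3 : (1 : ℤ) ≤ |(a : ℤ) - b| := Int.one_le_abs (by omega)
      exact_mod_cast h3
    · intro h
      exact (h ha).elim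
  rw [sum_congr rfl h2]
  simp

/-- the mean square over short intervals, for well distributed sets -/
lemma T_mean_thin {k u : ℕ} {l c C Y : ℝ} {A : Finset ℕ} (H : Good k u l c C Y A) {ρ η : ℝ} (hρ : 0 < ρ) (hη : 0 < η) :
    ∫ β : ℝ, W (β / ρ) * ‖T A (β / η)‖ ^ 2 ≤ ρ * (A.card * (C * (1 + (2 * (η / ρ)) / (Y ^ k) ^ l))) := by
  rw [T_mean A hρ η]
  apply mul_le_mul_of_nonneg_left _ hρ.le
  rw [← nsmul_eq_mul]
  apply sum_le_card_nsmul
  intro a _
  have h1 := H.thin ((a : ℝ) - η / ρ) (2 * (η / ρ)) (by positivity)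
  refine le_trans ?_ h1
  rw [card_filter]
  push_cast
  apply sum_le_sum
  intro b _
  split_ifs with h
  · exact_mod_cast w_le _
  · apply le_of_eq
    apply w_zero
    by_contra h2
    push Not at h2
    apply h
    rw [abs_mul, abs_of_pos hρ, abs_div, abs_of_pos hη, mul_div_assoc', div_lt_one hη] at h2
    have h3 : |(a : ℝ) - b| < η / ρ := by
      rw [lt_div_iff₀ hρ]
      linarith
    rw [abs_lt] at h3
    push_cast
    constructor <;> linarith [h3.1, h3.2]

lemma W_half {x : ℝ} (hx : |x| ≤ 1 / 2) : 2 / 5 ≤ W x := by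
  unfold W
  rcases eq_or_ne x 0 with h | h
  · rw [h, mul_zero, Real.sinc_zero]; norm_num
  · have hpi := Real.pi_pos
    have h1 : Real.sinc (Real.pi * x) = Real.sinc (Real.pi * |x|) := by
      rcases abs_choice x with h2 | h2
      · rw [h2]
      · rw [h2, mul_neg, Real.sinc_neg]
    have hx0 : 0 < |x| := abs_pos.2 h
    rw [h1, Real.sinc_of_ne_zero (by positivity)]
    have h2 := Real.mul_le_sin (x := Real.pi * |x|) (by positivity) (by nlinarith)
    have h3 : 2 / Real.pi ≤ Real.sin (Real.pi * |x|) / (Real.pi * |x|) := by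
      rw [le_div_iff₀ (by positivity)]
      exact h2
    have h4 : (2 / Real.pi) ^ 2 ≤ (Real.sin (Real.pi * |x|) / (Real.pi * |x|)) ^ 2 :=
      pow_le_pow_left₀ (by positivity) h3 2
    refine le_trans ?_ h4
    rw [div_pow, le_div_iff₀ (by positivity)]
    have h5 : Real.pi < 3.15 := Real.pi_lt_d2
    nlinarith

end Pool.Agent.K7.H55.MS
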