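import Mathlib
import Pool.Agent.K7.H55.MS.Tri

set_option autoImplicit false

/-! Honest and shifted powers: the error term and its mean over the shifts. -/

namespace Pool.Agent.K7.H55.MS
open Finset MeasureTheory Complex Pool.Agent.K7.H74.WS

/-- the total error -/
noncomputable def GE (k J s : ℕ) (η : ℝ) (A : Finset ℕ) (ξ : Fin s → ℝ) : ℝ :=
  ∫ β : ℝ, (W β * ‖T A (β / η)‖ ^ 2) * dl k J s (β / η) ξ

lemma GE_nonneg (k J s : ℕ) (η : ℝ) (A : Finset ℕ) (ξ : Fin s → ℝ) : 0 ≤ GE k J s η A ξ :=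
  integral_nonneg fun β => mul_nonneg (mul_nonneg (W_nonneg _) (sq_nonneg _)) (dl_nonneg _ _ _ _ _)

lemma GE_int2 (k J s : ℕ) (η : ℝ) (A : Finset ℕ) :
    Integrable (fun p : (Fin s → ℝ) × ℝ => (W p.2 * ‖T A (p.2 / η)‖ ^ 2) * dl k J s (p.2 / η) p.1) ((cube s).prod volume) := by
  have h1 : Integrable (fun p : (Fin s → ℝ) × ℝ => ((A.card : ℝ) ^ 2 * (2 * ((3 : ℝ) ^ J) ^ s)) * W p.2) ((cube s).prod volume) :=
    (integrable_const ((A.card : ℝ) ^ 2 * (2 * ((3 : ℝ) ^ J) ^ s))).mul_prod W_int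
  refine h1.mono' (f := fun p : (Fin s → ℝ) × ℝ => (W p.2 * ‖T A (p.2 / η)‖ ^ 2) * dl k J s (p.2 / η) p.1) ?_ ?_
  · have hW : Continuous fun p : (Fin s → ℝ) × ℝ => W p.2 := W_cont.comp continuous_snd
    have hT : Continuous fun p : (Fin s → ℝ) × ℝ => T A (p.2 / η) := (T_cont A).comp (continuous_snd.div_const η)
    have h4 : Continuous fun p : (Fin s → ℝ) × ℝ => dl k J s (p.2 / η) p.1 :=
      dl_cont k J s (continuous_snd.div_const η) continuous_fst
    exact ((hW.mul (hT.norm.pow 2)).mul h4).aestronglyMeasurable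
  · refine Filter.Eventually.of_forall fun p => ?_
    have h2 : 0 ≤ W p.2 := W_nonneg _
    have h3 : ‖T A (p.2 / η)‖ ^ 2 ≤ (A.card : ℝ) ^ 2 := pow_le_pow_left₀ (norm_nonneg _) (T_le _ _) 2
    have h4 := dl_le k J s (p.2 / η) p.1
    have h5 := dl_nonneg k J s (p.2 / η) p.1
    rw [Real.norm_of_nonneg (mul_nonneg (mul_nonneg h2 (sq_nonneg _)) h5)]
    calc W p.2 * ‖T A (p.2 / η)‖ ^ 2 * dl k J s (p.2 / η) p.1 ≤ W p.2 * (A.card : ℝ) ^ 2 * (2 * ((3 : ℝ) ^ J) ^ s) := by gcongr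
      _ = _ := by ring

lemma GE_int (k J s : ℕ) (η : ℝ) (A : Finset ℕ) : Integrable (GE k J s η A) (cube s) :=
  (GE_int2 k J s η A).integral_prod_left

/-- the product minus its mean -/
noncomputable def gg (k J : ℕ) {s : ℕ} (η : ℝ) (ξ : Fin s → ℝ) (β : ℝ) : ℂ := (∏ i, SF k J (β / η) (ξ i)) - MF k J (β / η) ^ s

lemma gg_cont (k J : ℕ) {s : ℕ} (η : ℝ) (ξ : Fin s → ℝ) : Continuous (gg k J η ξ) := by
  unfold gg
  exact (continuous_finsetProd _ fun i _ => (SF_cont k J).comp ((continuous_id.div_const η).prodMk continuous_const)).sub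
    (((MF_cont k J).comp (continuous_id.div_const η)).pow s)

lemma gg_norm (k J : ℕ) {s : ℕ} (η : ℝ) (ξ : Fin s → ℝ) (β : ℝ) : ‖gg k J η ξ β‖ = dl k J s (β / η) ξ := rfl

lemma gg_int (k J : ℕ) {s : ℕ} (η : ℝ) (ξ : Fin s → ℝ) (t : ℝ) :
    Integrable fun β : ℝ => (W β : ℂ) * (gg k J η ξ β * e (-(β / η * t))) := by
  refine (W_int.const_mul (2 * ((3 : ℝ) ^ J) ^ s)).mono' ?_ (Filter.Eventually.of_forall fun β => ?_)
  · have h1 : Continuous fun β : ℝ => (W β : ℂ) := continuous_ofReal.comp W_cont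
    have h2 : Continuous fun β : ℝ => e (-(β / η * t)) := e_cont.comp (by fun_prop)
    exact (h1.mul ((gg_cont k J η ξ).mul h2)).aestronglyMeasurable
  · rw [norm_mul, norm_mul, norm_e, mul_one, Complex.norm_of_nonneg (W_nonneg _), mul_comm, gg_norm]
    exact mul_le_mul_of_nonneg_right (dl_le _ _ _ _ _) (W_nonneg _)

lemma RF_VF_eq (k J s : ℕ) (η t : ℝ) (ξ : Fin s → ℝ) :
    ((RF k J s η t ξ - VF k J s η t : ℝ) : ℂ) = ∫ β : ℝ, (W β : ℂ) * (gg k J η ξ β * e (-(β / η * t))) := by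
  push_cast
  rw [RF_eq, VF_eq]
  rw [← integral_sub]
  · refine integral_congr_ae (Filter.Eventually.of_forall fun β => ?_)
    simp only [gg]
    ring
  · refine (W_int.const_mul (((3 : ℝ) ^ J) ^ s)).mono' ?_ (Filter.Eventually.of_forall fun β => ?_)
    · have h1 : Continuous fun β : ℝ => (W β : ℂ) := continuous_ofReal.comp W_cont
      have h2 : Continuous fun β : ℝ => e (-(β / η * t)) := e_cont.comp (by fun_prop)
      have h3 : Continuous fun β : ℝ => ∏ i, SF k J (β / η) (ξ i) := continuous_finsetProd _ fun i _ =>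
        (SF_cont k J).comp ((continuous_id.div_const η).prodMk continuous_const)
      exact (h1.mul (h3.mul h2)).aestronglyMeasurable
    · rw [norm_mul, norm_mul, norm_e, mul_one, Complex.norm_of_nonneg (W_nonneg _), mul_comm]
      apply mul_le_mul_of_nonneg_right _ (W_nonneg _)
      rw [norm_prod]
      have h1 : ∏ i : Fin s, ‖SF k J (β / η) (ξ i)‖ ≤ ∏ _i : Fin s, (3 : ℝ) ^ J :=
        prod_le_prod (fun i _ => norm_nonneg _) fun i _ => SF_le _ _ _ _
      rwa [prod_const, card_univ, Fintype.card_fin] at h1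
  · refine (W_int.const_mul (((3 : ℝ) ^ J) ^ s)).mono' ?_ (Filter.Eventually.of_forall fun β => ?_)
    · have h1 : Continuous fun β : ℝ => (W β : ℂ) := continuous_ofReal.comp W_cont
      have h2 : Continuous fun β : ℝ => e (-(β / η * t)) := e_cont.comp (by fun_prop)
      have h3 : Continuous fun β : ℝ => MF k J (β / η) ^ s := ((MF_cont k J).comp (continuous_id.div_const η)).pow s
      exact (h1.mul (h3.mul h2)).aestronglyMeasurable
    · rw [norm_mul, norm_mul, norm_e, mul_one, Complex.norm_of_nonneg (W_nonneg _), mul_comm]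
      apply mul_le_mul_of_nonneg_right _ (W_nonneg _)
      rw [norm_pow]
      exact pow_le_pow_left₀ (norm_nonneg _) (MF_le' _ _ _) _

/-- the error for all targets at the same time -/
theorem sum_le_GE (k J s : ℕ) (η τ : ℝ) (A : Finset ℕ) (ξ : Fin s → ℝ) :
    |∑ a ∈ A, ∑ b ∈ A, (RF k J s η (τ - a - b) ξ - VF k J s η (τ - a - b))| ≤ GE k J s η A ξ := by
  have h1 : ((∑ a ∈ A, ∑ b ∈ A, (RF k J s η (τ - a - b) ξ - VF k J s η (τ - a - b)) : ℝ) : ℂ) =
      ∫ β : ℝ, (W β : ℂ) * (gg k J η ξ β * (e (-(β / η * τ)) * T A (β / η) ^ 2)) := by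
    rw [ofReal_sum]
    simp_rw [ofReal_sum, RF_VF_eq]
    have e1 : ∀ a ∈ A, ∑ b ∈ A, ∫ β : ℝ, (W β : ℂ) * (gg k J η ξ β * e (-(β / η * (τ - a - b)))) =
        ∫ β : ℝ, ∑ b ∈ A, (W β : ℂ) * (gg k J η ξ β * e (-(β / η * (τ - a - b)))) := fun a _ =>
      (integral_finsetSum _ fun b _ => gg_int k J η ξ _).symm
    rw [sum_congr rfl e1, ← integral_finsetSum _ fun a _ => integrable_finsetSum _ fun b _ => gg_int k J η ξ _]
    refine integral_congr_ae (Filter.Eventually.of_forall fun β => ?_)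
    simp only
    have e2 : ∀ a ∈ A, ∀ b ∈ A, (W β : ℂ) * (gg k J η ξ β * e (-(β / η * (τ - a - b)))) =
        (W β : ℂ) * (gg k J η ξ β * e (-(β / η * τ))) * (e (β / η * a) * e (β / η * b)) := by
      intro a _ b _
      have e3 : e (-(β / η * (τ - a - b))) = e (-(β / η * τ)) * (e (β / η * a) * e (β / η * b)) := by
        rw [← e_add, ← e_add]
        congr 1
        ring
      rw [e3]
      ring
    rw [sum_congr rfl fun a ha => sum_congr rfl fun b hb => e2 a ha b hb]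
    simp_rw [← mul_sum]
    rw [← sum_mul]
    unfold T
    ring
  have h2 : |∑ a ∈ A, ∑ b ∈ A, (RF k J s η (τ - a - b) ξ - VF k J s η (τ - a - b))| =
      ‖((∑ a ∈ A, ∑ b ∈ A, (RF k J s η (τ - a - b) ξ - VF k J s η (τ - a - b)) : ℝ) : ℂ)‖ := by
    rw [Complex.norm_real, Real.norm_eq_abs]
  rw [h2, h1]
  refine (norm_integral_le_integral_norm _).trans (le_of_eq ?_)
  unfold GE
  refine integral_congr_ae (Filter.Eventually.of_forall fun β => ?_)
  simp only
  rw [norm_mul, norm_mul, norm_mul, norm_e, one_mul, Complex.norm_of_nonneg (W_nonneg _), gg_norm, norm_pow]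
  ring

/-- the frequency and the length belonging to it -/
lemma length_exists (m : ℕ) {α : ℝ} (hα : α ≠ 0) : ∃ v : ℝ, 0 < v ∧ |α| * v ^ (m + 2) = 1 := by
  have hα0 : 0 < |α| := abs_pos.2 hα
  refine ⟨|α| ^ (-(1 / ((m + 2 : ℕ) : ℝ))), Real.rpow_pos_of_pos hα0 _, ?_⟩
  rw [← Real.rpow_natCast, ← Real.rpow_mul hα0.le]
  have : -(1 / ((m + 2 : ℕ) : ℝ)) * ((m + 2 : ℕ) : ℝ) = -1 := by
    have : ((m + 2 : ℕ) : ℝ) ≠ 0 := by positivity
    field_simp
  rw [this, Real.rpow_neg_one, mul_inv_cancel₀ hα0.ne']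

lemma length_le {m : ℕ} {α v α' v' : ℝ} (hv : 0 < v) (h : |α| * v ^ (m + 2) = 1) (hv' : 0 < v') (h' : α' * v' ^ (m + 2) = 1)
    (hα' : 0 < α') (hle : α' ≤ |α|) : v ≤ v' := by
  by_contra h1
  push Not at h1
  have h2 : v' ^ (m + 2) < v ^ (m + 2) := pow_lt_pow_left₀ h1 hv'.le (by omega)
  have h3 : α' * v' ^ (m + 2) < |α| * v ^ (m + 2) := by
    calc α' * v' ^ (m + 2) < α' * v ^ (m + 2) := mul_lt_mul_of_pos_left h2 hα'
      _ ≤ |α| * v ^ (m + 2) := mul_le_mul_of_nonneg_right hle (by positivity)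
  linarith

theorem GE_mean {m J r : ℕ} {q η : ℝ} (hq : 1 ≤ q) (hJ : (3 : ℝ) ^ J = q ^ 4) (hη : 0 < η) (hη1 : η ≤ 1) (A : Finset ℕ)
    {β0 v0 β1 v1 : ℝ} (hβ0 : 0 < β0) (hβ1 : 0 < β1) (hv0 : 0 < v0) (hv1 : 0 < v1)
    (h0 : β0 / η * v0 ^ (m + 2) = 1) (h1 : β1 / η * v1 ^ (m + 2) = 1) :
    ∫ ξ, GE (m + 2) J (r + 1) η A ξ ∂(cube (r + 1)) ≤
      (r + 1) * ((LJ m J * q ^ 3) * (2 * LJ m J * q ^ 4) ^ r) * (A.card : ℝ) ^ 2 * (2 * β0)
      + (LM J * (q ^ 2 + v0)) ^ (r + 1) * (5 / 2 * ∫ β : ℝ, W (β / (2 * β1)) * ‖T A (β / η)‖ ^ 2)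
      + (LM J * (q ^ 2 + v1)) ^ (r + 1) * A.card := by
  have hq0 : 0 < q := by linarith
  have hLJ := LJ_pos m J
  have hLM := LM_pos J
  have hQ : 1 ≤ q ^ 2 := one_le_pow₀ hq
  have hJ2 : (3 : ℝ) ^ J = (q ^ 2) ^ 2 := by rw [hJ]; ring
  set K0 : ℝ := (r + 1) * ((LJ m J * q ^ 3) * (2 * LJ m J * q ^ 4) ^ r) with hK0
  set K1 : ℝ := (LM J * (q ^ 2 + v0)) ^ (r + 1) with hK1
  set K2 : ℝ := (LM J * (q ^ 2 + v1)) ^ (r + 1) with hK2
  have hK00 : 0 ≤ K0 := by positivity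
  have hK10 : 0 ≤ K1 := by positivity
  have hK20 : 0 ≤ K2 := by positivity
  have e1 : ∫ ξ, GE (m + 2) J (r + 1) η A ξ ∂(cube (r + 1)) =
      ∫ β, (W β * ‖T A (β / η)‖ ^ 2) * ∫ ξ, dl (m + 2) J (r + 1) (β / η) ξ ∂(cube (r + 1)) := by
    unfold GE
    rw [integral_integral_swap (f := fun (ξ : Fin (r + 1) → ℝ) (β : ℝ) => (W β * ‖T A (β / η)‖ ^ 2) * dl (m + 2) J (r + 1) (β / η) ξ)
      (GE_int2 (m + 2) J (r + 1) η A)]
    simp_rw [integral_const_mul]
  rw [e1]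
  -- the pointwise bound
  have hpt : ∀ β : ℝ, (W β * ‖T A (β / η)‖ ^ 2) * ∫ ξ, dl (m + 2) J (r + 1) (β / η) ξ ∂(cube (r + 1)) ≤
      (K0 * (A.card : ℝ) ^ 2) * (Set.Icc (-β0) β0).indicator (fun _ => (1 : ℝ)) β
      + (K1 * (5 / 2)) * (W (β / (2 * β1)) * ‖T A (β / η)‖ ^ 2) + K2 * (W β * ‖T A (β / η)‖ ^ 2) := by
    intro β
    set E : ℝ := ∫ ξ, dl (m + 2) J (r + 1) (β / η) ξ ∂(cube (r + 1)) with hE
    have hE0 : 0 ≤ E := integral_nonneg fun _ => dl_nonneg _ _ _ _ _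
    have hW0 := W_nonneg β
    have hW1 := W_le β
    have hWs0 := W_nonneg (β / (2 * β1))
    have hT0 : 0 ≤ ‖T A (β / η)‖ ^ 2 := sq_nonneg _
    have hT1 : ‖T A (β / η)‖ ^ 2 ≤ (A.card : ℝ) ^ 2 := pow_le_pow_left₀ (norm_nonneg _) (T_le _ _) 2
    have a1 : 0 ≤ (K1 * (5 / 2)) * (W (β / (2 * β1)) * ‖T A (β / η)‖ ^ 2) := by positivity
    have a2 : 0 ≤ K2 * (W β * ‖T A (β / η)‖ ^ 2) := by positivity
    by_cases hβ : β ∈ Set.Icc (-β0) β0
    · rw [Set.indicator_of_mem hβ, mul_one]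
      have b1 : E ≤ K0 := dl_mean_near (β / η) hq hJ
      have b2 : (W β * ‖T A (β / η)‖ ^ 2) * E ≤ (1 * (A.card : ℝ) ^ 2) * K0 := by
        apply mul_le_mul _ b1 hE0 (by positivity)
        exact mul_le_mul hW1 hT1 hT0 zero_le_one
      linarith
    · have b0 : β0 < |β| := by
        by_contra h6
        push Not at h6
        exact hβ ⟨(abs_le.1 h6).1, (abs_le.1 h6).2⟩
      rw [Set.indicator_of_notMem hβ, mul_zero, zero_add]
      have b1 : β / η ≠ 0 := by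
        apply div_ne_zero _ hη.ne'
        intro h8
        rw [h8, abs_zero] at b0
        linarith
      obtain ⟨v, hv, hvα⟩ := length_exists m b1
      have b2 : E ≤ (LM J * (q ^ 2 + v)) ^ (r + 1) := dl_mean_far b1 hv hvα hQ hJ2
      have b3 : |β / η| = |β| / η := by rw [abs_div, abs_of_pos hη]
      rcases le_or_gt |β| β1 with h | h
      · have b4 : v ≤ v0 := length_le hv hvα hv0 h0 (by positivity) (by rw [b3]; exact div_le_div_of_nonneg_right b0.le hη.le)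
        have b5 : E ≤ K1 := b2.trans (by rw [hK1]; gcongr)
        have b6 : 2 / 5 ≤ W (β / (2 * β1)) := by
          apply W_half
          rw [abs_div, abs_of_pos (by positivity : 0 < 2 * β1), div_le_div_iff₀ (by positivity) (by norm_num)]
          linarith
        have b7 : W β ≤ 5 / 2 * W (β / (2 * β1)) := by linarith
        calc (W β * ‖T A (β / η)‖ ^ 2) * E ≤ ((5 / 2 * W (β / (2 * β1))) * ‖T A (β / η)‖ ^ 2) * K1 := by gcongr
          _ = (K1 * (5 / 2)) * (W (β / (2 * β1)) * ‖T A (β / η)‖ ^ 2) := by ring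
          _ ≤ _ := by linarith
      · have b4 : v ≤ v1 := length_le hv hvα hv1 h1 (by positivity) (by rw [b3]; exact div_le_div_of_nonneg_right h.le hη.le)
        have b5 : E ≤ K2 := b2.trans (by rw [hK2]; gcongr)
        calc (W β * ‖T A (β / η)‖ ^ 2) * E ≤ (W β * ‖T A (β / η)‖ ^ 2) * K2 := by gcongr
          _ = K2 * (W β * ‖T A (β / η)‖ ^ 2) := by ring
          _ ≤ _ := by linarith
  -- integrability
  have i1 : Integrable (fun β : ℝ => (Set.Icc (-β0) β0).indicator (fun _ => (1 : ℝ)) β) := by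
    rw [integrable_indicator_iff measurableSet_Icc]
    exact integrableOn_const (by rw [Real.volume_Icc]; exact ENNReal.ofReal_ne_top)
  have i2 : ∀ ρ : ℝ, 0 < ρ → Integrable fun β : ℝ => W (β / ρ) * ‖T A (β / η)‖ ^ 2 := by
    intro ρ hρ
    refine ((W_int.comp_div hρ.ne').const_mul ((A.card : ℝ) ^ 2)).mono' ?_ (Filter.Eventually.of_forall fun β => ?_)
    · have c1 : Continuous fun β : ℝ => W (β / ρ) := W_cont.comp (by fun_prop)
      have c2 : Continuous fun β : ℝ => T A (β / η) := (T_cont A).comp (by fun_prop)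
      exact (c1.mul (c2.norm.pow 2)).aestronglyMeasurable
    · rw [Real.norm_of_nonneg (mul_nonneg (W_nonneg _) (sq_nonneg _)), mul_comm]
      exact mul_le_mul_of_nonneg_right (pow_le_pow_left₀ (norm_nonneg _) (T_le _ _) 2) (W_nonneg _)
  have i3 := i2 (2 * β1) (by positivity)
  have i4 : Integrable fun β : ℝ => W β * ‖T A (β / η)‖ ^ 2 := by
    have := i2 1 one_pos
    simpa using this
  have hint := ((i1.const_mul (K0 * (A.card : ℝ) ^ 2)).add (i3.const_mul (K1 * (5 / 2)))).add (i4.const_mul K2)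
  refine (integral_mono_of_nonneg (Filter.Eventually.of_forall fun β => ?_) hint
    (Filter.Eventually.of_forall hpt)).trans (le_of_eq ?_)
  · exact mul_nonneg (mul_nonneg (W_nonneg _) (sq_nonneg _)) (integral_nonneg fun _ => dl_nonneg _ _ _ _ _)
  · have e2 := integral_add ((i1.const_mul (K0 * (A.card : ℝ) ^ 2)).add (i3.const_mul (K1 * (5 / 2)))) (i4.const_mul K2)
    have e3 := integral_add (i1.const_mul (K0 * (A.card : ℝ) ^ 2)) (i3.const_mul (K1 * (5 / 2)))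
    simp only [Pi.add_apply] at e2 e3 ⊢
    rw [e2, e3, integral_const_mul, integral_const_mul, integral_const_mul, T_mean_one A hη hη1]
    have e4 : ∫ β : ℝ, (Set.Icc (-β0) β0).indicator (fun _ => (1 : ℝ)) β = 2 * β0 := by
      rw [integral_indicator measurableSet_Icc, setIntegral_const, smul_eq_mul, mul_one, measureReal_def, Real.volume_Icc,
        ENNReal.toReal_ofReal (by linarith)]
      ring
    rw [e4]
    ring

end Pool.Agent.K7.H55.MS
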