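import Mathlib
import Pool.Agent.K7.H55.MS.Ge
import Pool.Agent.K7.H74.WS.Bc

set_option autoImplicit false

/-! Honest and shifted powers: the mean error compared with the main term. -/

namespace Pool.Agent.K7.H55.MS
open Finset MeasureTheory Filter Pool.Agent.K7.H74.WS

theorem ratio (m r u : ℕ) {l c C : ℝ} (hl0 : 0 ≤ l) (hl : 2 * l ≤ 1) (hc : 0 < c) (hC : 0 < C) :
    ∃ B : ℝ, 0 < B ∧ ∀ (J : ℕ) (A : Finset ℕ), Good (m + 2) u l c C ((3 : ℝ) ^ J / 9) A →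
      ∫ ξ, GE (m + 2) J (r + 1) (1 / 2) A ξ ∂(cube (r + 1)) ≤
        B * (((J : ℝ) + 1) ^ (2 * (r + 1)) * (((3 : ℝ) ^ J) ^ (-(1 / 8) : ℝ) + ((3 : ℝ) ^ J) ^ (-(((r : ℝ) + 1) / (8 * (m + 2))))
          + ((3 : ℝ) ^ J) ^ (-(((r : ℝ) + 1) / 2 - (m + 2) * l)))) *
        ((A.card : ℝ) ^ 2 * (((3 : ℝ) ^ J) ^ (r + 1) / ((3 : ℝ) ^ J) ^ (m + 2))) := by
  have hCK := CK_pos m
  set B0 : ℝ := (r + 1) * 2 ^ r * (2 * CK m + 6) ^ (r + 1) with hB0
  set B1 : ℝ := 5 * C * (9 ^ (m + 2) / c) * 24 ^ (r + 1) with hB1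
  set B2 : ℝ := 9 ^ (m + 2) / c * 24 ^ (r + 1) with hB2
  have hB0p : 0 < B0 := by positivity
  have hB1p : 0 < B1 := by positivity
  have hB2p : 0 < B2 := by positivity
  refine ⟨B0 + B1 + B2, by positivity, fun J A H => ?_⟩
  set X : ℝ := (3 : ℝ) ^ J with hX
  have hX1 : 1 ≤ X := one_le_pow₀ (by norm_num)
  have hX0 : 0 < X := by linarith
  obtain ⟨q, hq1, hqn⟩ : ∃ q : ℝ, 1 ≤ q ∧ ∀ n : ℕ, q ^ n = X ^ ((n : ℝ) / 4) := by
    refine ⟨X ^ (1 / 4 : ℝ), Real.one_le_rpow hX1 (by norm_num), fun n => ?_⟩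
    rw [← Real.rpow_natCast, ← Real.rpow_mul hX0.le]
    congr 1
    ring
  have hq4 : X = q ^ 4 := by rw [hqn]; norm_num
  have hq2 : q ^ 2 = X ^ (1 / 2 : ℝ) := by rw [hqn]; norm_num
  set Y : ℝ := X / 9 with hY
  have hY0 : 0 < Y := by positivity
  have hYX : Y ≤ X := by rw [hY]; linarith
  set D : ℝ := (Y ^ (m + 2)) ^ l with hD
  have hD0 : 0 < D := Real.rpow_pos_of_pos (by positivity) _
  -- the parameters
  set v0 : ℝ := X ^ (1 - 1 / (8 * ((m : ℝ) + 2))) with hv0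
  have hv00 : 0 < v0 := Real.rpow_pos_of_pos hX0 _
  set β0 : ℝ := 1 / 2 * (X ^ (1 / 8 : ℝ) / X ^ (m + 2)) with hβ0
  have hβ00 : 0 < β0 := by have := Real.rpow_pos_of_pos hX0 (1 / 8 : ℝ); positivity
  set β1 : ℝ := 1 / 2 * (1 / D) with hβ1
  have hβ10 : 0 < β1 := by positivity
  set v1 : ℝ := Y ^ l with hv1
  have hv10 : 0 < v1 := Real.rpow_pos_of_pos hY0 _
  have hm2 : (0 : ℝ) < (m : ℝ) + 2 := by positivity
  have h0 : β0 / (1 / 2) * v0 ^ (m + 2) = 1 := by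
    have e1 : v0 ^ (m + 2) = X ^ (m + 2) / X ^ (1 / 8 : ℝ) := by
      rw [hv0, ← Real.rpow_natCast, ← Real.rpow_mul hX0.le, ← Real.rpow_natCast, ← Real.rpow_sub hX0]
      congr 1
      push_cast
      field_simp
    have h8 : 0 < X ^ (1 / 8 : ℝ) := Real.rpow_pos_of_pos hX0 _
    rw [e1, hβ0]
    field_simp
  have h1 : β1 / (1 / 2) * v1 ^ (m + 2) = 1 := by
    have e1 : v1 ^ (m + 2) = D := by
      rw [hv1, hD, ← Real.rpow_natCast, ← Real.rpow_natCast, ← Real.rpow_mul hY0.le, ← Real.rpow_mul hY0.le, mul_comm]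
    rw [e1, hβ1]
    field_simp
  have hmean := GE_mean (m := m) (J := J) (r := r) hq1 hq4 (by norm_num : (0 : ℝ) < 1 / 2) (by norm_num) A hβ00 hβ10 hv00 hv10 h0 h1
  have hthin := T_mean_thin H (ρ := 2 * β1) (η := 1 / 2) (by positivity) (by norm_num)
  have hthin2 : ∫ β : ℝ, W (β / (2 * β1)) * ‖T A (β / (1 / 2))‖ ^ 2 ≤ 1 / D * (A.card * (C * 2)) := by
    refine hthin.trans (le_of_eq ?_)
    have e1 : 2 * β1 = 1 / D := by rw [hβ1]; ring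
    rw [e1, ← hD]
    have e2 : (2 * ((1 : ℝ) / 2 / (1 / D))) / D = 1 := by field_simp
    rw [e2]
    norm_num
  have hLM := LM_pos J
  have hLJ := LJ_pos m J
  set j : ℝ := (J : ℝ) + 1 with hj
  have hj1 : 1 ≤ j := by rw [hj]; have : (0 : ℝ) ≤ J := Nat.cast_nonneg _; linarith
  have hj0 : 0 < j := by linarith
  set g : ℝ := j ^ (2 * (r + 1)) with hg
  have hg0 : 0 < g := pow_pos hj0 _
  have hg2 : g = (j ^ 2) ^ (r + 1) := by rw [hg, pow_mul]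
  have hLMj : LM J ≤ 12 * j ^ 2 := LM_le J
  have hLJj : LJ m J ≤ (2 * CK m + 6) * j ^ 2 := LJ_le m J
  have hmany := H.many
  have hYk : Y ^ (m + 2) = X ^ (m + 2) / 9 ^ (m + 2) := by rw [hY, div_pow]
  set a : ℝ := (A.card : ℝ)
  have ha0 : 0 ≤ a := Nat.cast_nonneg _
  clear_value a
  have hXk : 0 < X ^ (m + 2) := by positivity
  -- `1 ≤ 9^k / c * (a D / X^k)`
  have hone : 1 ≤ 9 ^ (m + 2) / c * (a * D / X ^ (m + 2)) := by
    have e1 : (9 : ℝ) ^ (m + 2) / c * (a * D / X ^ (m + 2)) = (a * D) / (c * Y ^ (m + 2)) := by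
      rw [hYk]; field_simp
    rw [e1, le_div_iff₀ (by positivity), one_mul]
    exact hmany
  -- first term
  have t0 : (r + 1) * ((LJ m J * q ^ 3) * (2 * LJ m J * q ^ 4) ^ r) * a ^ 2 * (2 * β0) ≤
      B0 * (g * X ^ (-(1 / 8) : ℝ)) * (a ^ 2 * (X ^ (r + 1) / X ^ (m + 2))) := by
    have e1 : q ^ 3 * X ^ (1 / 8 : ℝ) = X ^ (-(1 / 8) : ℝ) * X := by
      rw [hqn, ← Real.rpow_add hX0]
      nth_rewrite 3 [← Real.rpow_one X]
      rw [← Real.rpow_add hX0]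
      norm_num
    have e2 : (r + 1) * ((LJ m J * q ^ 3) * (2 * LJ m J * q ^ 4) ^ r) * a ^ 2 * (2 * β0) =
        (r + 1) * 2 ^ r * LJ m J ^ (r + 1) * (X ^ (-(1 / 8) : ℝ)) * (a ^ 2 * (X ^ (r + 1) / X ^ (m + 2))) := by
      rw [← hq4, hβ0]
      calc (r + 1) * ((LJ m J * q ^ 3) * (2 * LJ m J * X) ^ r) * a ^ 2 * (2 * (1 / 2 * (X ^ (1 / 8 : ℝ) / X ^ (m + 2))))
          = (r + 1) * 2 ^ r * (LJ m J * LJ m J ^ r) * (q ^ 3 * X ^ (1 / 8 : ℝ)) * (a ^ 2 * (X ^ r / X ^ (m + 2))) := by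
            rw [mul_pow, mul_pow]; ring
        _ = _ := by rw [e1]; ring
    rw [e2]
    have e3 : LJ m J ^ (r + 1) ≤ (2 * CK m + 6) ^ (r + 1) * g := by
      rw [hg2, ← mul_pow]
      exact pow_le_pow_left₀ hLJ.le hLJj _
    have h8 : 0 < X ^ (-(1 / 8) : ℝ) := Real.rpow_pos_of_pos hX0 _
    calc (r + 1) * 2 ^ r * LJ m J ^ (r + 1) * (X ^ (-(1 / 8) : ℝ)) * (a ^ 2 * (X ^ (r + 1) / X ^ (m + 2)))
        ≤ (r + 1) * 2 ^ r * ((2 * CK m + 6) ^ (r + 1) * g) * (X ^ (-(1 / 8) : ℝ)) * (a ^ 2 * (X ^ (r + 1) / X ^ (m + 2))) := by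
          gcongr
      _ = _ := by rw [hB0]; ring
  have hLM2 : ∀ v : ℝ, 0 < v → (LM J * (2 * v)) ^ (r + 1) ≤ 24 ^ (r + 1) * g * v ^ (r + 1) := by
    intro v hv
    rw [hg2, ← mul_pow, ← mul_pow]
    apply pow_le_pow_left₀ (by positivity)
    calc LM J * (2 * v) ≤ 12 * j ^ 2 * (2 * v) := by gcongr
      _ = _ := by ring
  -- second term
  have t1 : (LM J * (q ^ 2 + v0)) ^ (r + 1) * (5 / 2 * ∫ β : ℝ, W (β / (2 * β1)) * ‖T A (β / (1 / 2))‖ ^ 2) ≤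
      B1 * (g * X ^ (-(((r : ℝ) + 1) / (8 * (m + 2))))) * (a ^ 2 * (X ^ (r + 1) / X ^ (m + 2))) := by
    have e1 : q ^ 2 ≤ v0 := by
      rw [hq2, hv0]
      apply Real.rpow_le_rpow_of_exponent_le hX1
      have : 1 / (8 * ((m : ℝ) + 2)) ≤ 1 / 16 := by
        apply div_le_div_of_nonneg_left zero_le_one (by norm_num)
        have : (0 : ℝ) ≤ m := Nat.cast_nonneg _
        linarith
      linarith
    have e2 : (LM J * (q ^ 2 + v0)) ^ (r + 1) ≤ 24 ^ (r + 1) * g * v0 ^ (r + 1) := by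
      refine le_trans ?_ (hLM2 v0 hv00)
      apply pow_le_pow_left₀ (by positivity)
      apply mul_le_mul_of_nonneg_left _ hLM.le
      linarith
    have e3 : v0 ^ (r + 1) = X ^ (-(((r : ℝ) + 1) / (8 * (m + 2)))) * X ^ (r + 1) := by
      rw [hv0, ← Real.rpow_natCast, ← Real.rpow_mul hX0.le, ← Real.rpow_natCast X, ← Real.rpow_add hX0]
      congr 1
      push_cast
      field_simp
      ring
    have e4 : 5 / 2 * ∫ β : ℝ, W (β / (2 * β1)) * ‖T A (β / (1 / 2))‖ ^ 2 ≤ 5 * C * (9 ^ (m + 2) / c) * (a ^ 2 / X ^ (m + 2)) := by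
      have f1 : 1 / D * (a * (C * 2)) ≤ 1 / D * (a * (C * 2)) * (9 ^ (m + 2) / c * (a * D / X ^ (m + 2))) :=
        le_mul_of_one_le_right (by positivity) hone
      have f2 : 1 / D * (a * (C * 2)) * (9 ^ (m + 2) / c * (a * D / X ^ (m + 2))) = 2 * C * (9 ^ (m + 2) / c) * (a ^ 2 / X ^ (m + 2)) := by
        field_simp
      rw [f2] at f1
      have f3 := hthin2.trans f1
      linarith
    have hI0 : 0 ≤ 5 / 2 * ∫ β : ℝ, W (β / (2 * β1)) * ‖T A (β / (1 / 2))‖ ^ 2 :=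
      mul_nonneg (by norm_num) (integral_nonneg fun β => mul_nonneg (W_nonneg _) (sq_nonneg _))
    calc (LM J * (q ^ 2 + v0)) ^ (r + 1) * (5 / 2 * ∫ β : ℝ, W (β / (2 * β1)) * ‖T A (β / (1 / 2))‖ ^ 2)
        ≤ (24 ^ (r + 1) * g * v0 ^ (r + 1)) * (5 * C * (9 ^ (m + 2) / c) * (a ^ 2 / X ^ (m + 2))) :=
          mul_le_mul e2 e4 hI0 (by positivity)
      _ = _ := by rw [e3, hB1]; ring
  -- third term
  have t2 : (LM J * (q ^ 2 + v1)) ^ (r + 1) * a ≤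
      B2 * (g * X ^ (-(((r : ℝ) + 1) / 2 - (m + 2) * l))) * (a ^ 2 * (X ^ (r + 1) / X ^ (m + 2))) := by
    have e1 : v1 ≤ q ^ 2 := by
      rw [hq2, hv1]
      calc Y ^ l ≤ X ^ l := Real.rpow_le_rpow hY0.le hYX hl0
        _ ≤ X ^ (1 / 2 : ℝ) := Real.rpow_le_rpow_of_exponent_le hX1 (by linarith)
    have hq20 : 0 < q ^ 2 := by positivity
    have e2 : (LM J * (q ^ 2 + v1)) ^ (r + 1) ≤ 24 ^ (r + 1) * g * (q ^ 2) ^ (r + 1) := by
      refine le_trans ?_ (hLM2 (q ^ 2) hq20)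
      apply pow_le_pow_left₀ (by positivity)
      apply mul_le_mul_of_nonneg_left _ hLM.le
      linarith
    have e5 : D ≤ X ^ (((m : ℝ) + 2) * l) := by
      rw [hD]
      calc (Y ^ (m + 2)) ^ l ≤ (X ^ (m + 2)) ^ l := Real.rpow_le_rpow (by positivity) (pow_le_pow_left₀ hY0.le hYX _) hl0
        _ = _ := by
          rw [← Real.rpow_natCast, ← Real.rpow_mul hX0.le]
          push_cast
          rfl
    have e3 : (q ^ 2) ^ (r + 1) * X ^ (((m : ℝ) + 2) * l) = X ^ (-(((r : ℝ) + 1) / 2 - (m + 2) * l)) * X ^ (r + 1) := by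
      rw [hq2, ← Real.rpow_natCast, ← Real.rpow_mul hX0.le, ← Real.rpow_natCast X, ← Real.rpow_add hX0, ← Real.rpow_add hX0]
      congr 1
      push_cast
      ring
    have e4 : a ≤ 9 ^ (m + 2) / c * (a ^ 2 / X ^ (m + 2)) * X ^ (((m : ℝ) + 2) * l) := by
      calc a = a * 1 := (mul_one _).symm
        _ ≤ a * (9 ^ (m + 2) / c * (a * D / X ^ (m + 2))) := mul_le_mul_of_nonneg_left hone ha0
        _ ≤ a * (9 ^ (m + 2) / c * (a * X ^ (((m : ℝ) + 2) * l) / X ^ (m + 2))) := by gcongr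
        _ = _ := by ring
    calc (LM J * (q ^ 2 + v1)) ^ (r + 1) * a
        ≤ (24 ^ (r + 1) * g * (q ^ 2) ^ (r + 1)) * (9 ^ (m + 2) / c * (a ^ 2 / X ^ (m + 2)) * X ^ (((m : ℝ) + 2) * l)) :=
          mul_le_mul e2 e4 ha0 (by positivity)
      _ = 24 ^ (r + 1) * g * (9 ^ (m + 2) / c * (a ^ 2 / X ^ (m + 2))) * ((q ^ 2) ^ (r + 1) * X ^ (((m : ℝ) + 2) * l)) := by ring
      _ = _ := by rw [e3, hB2]; ring
  -- together
  set F : ℝ := a ^ 2 * (X ^ (r + 1) / X ^ (m + 2)) with hF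
  have hF0 : 0 ≤ F := by positivity
  set G0 : ℝ := X ^ (-(1 / 8) : ℝ) with hG0
  set G1 : ℝ := X ^ (-(((r : ℝ) + 1) / (8 * (m + 2)))) with hG1
  set G2 : ℝ := X ^ (-(((r : ℝ) + 1) / 2 - (m + 2) * l)) with hG2
  have hG00 : 0 < G0 := Real.rpow_pos_of_pos hX0 _
  have hG10 : 0 < G1 := Real.rpow_pos_of_pos hX0 _
  have hG20 : 0 < G2 := Real.rpow_pos_of_pos hX0 _
  have s1 : B0 * (g * G0) * F ≤ (B0 + B1 + B2) * (g * G0) * F := by
    apply mul_le_mul_of_nonneg_right _ hF0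
    apply mul_le_mul_of_nonneg_right _ (by positivity)
    linarith
  have s2 : B1 * (g * G1) * F ≤ (B0 + B1 + B2) * (g * G1) * F := by
    apply mul_le_mul_of_nonneg_right _ hF0
    apply mul_le_mul_of_nonneg_right _ (by positivity)
    linarith
  have s3 : B2 * (g * G2) * F ≤ (B0 + B1 + B2) * (g * G2) * F := by
    apply mul_le_mul_of_nonneg_right _ hF0
    apply mul_le_mul_of_nonneg_right _ (by positivity)
    linarith
  have e : (B0 + B1 + B2) * (g * (G0 + G1 + G2)) * F =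
      (B0 + B1 + B2) * (g * G0) * F + (B0 + B1 + B2) * (g * G1) * F + (B0 + B1 + B2) * (g * G2) * F := by ring
  rw [e]
  linarith

end Pool.Agent.K7.H55.MS
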