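import Mathlib
import Pool.Agent.K7.H74.WS.Cnt
import Pool.Agent.K7.H74.WS.Vol

set_option autoImplicit false

/-! Honest and shifted powers: a lower bound for the expected number. -/

namespace Pool.Agent.K7.H55.MS
open Finset MeasureTheory Pool.Agent.K7.H74.WS

lemma rpow_gap {a b κ Z ρ : ℝ} (hκ : 0 < κ) (hκ1 : κ ≤ 1) (hZ : 0 < Z) (hρ : 0 < ρ) (ha : κ * Z ≤ a) (hab : a < b) (hb : b ≤ Z) :
    ρ * (κ ^ ρ * Z ^ (ρ - 1)) * (b - a) ≤ b ^ ρ - a ^ ρ := by
  have ha0 : 0 < a := (by positivity : 0 < κ * Z).trans_le ha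
  obtain ⟨c, hc, hc2⟩ := exists_hasDerivAt_eq_slope (fun x : ℝ => x ^ ρ) (fun x => ρ * x ^ (ρ - 1)) hab
    (fun x hx => (Real.continuousAt_rpow_const x ρ (Or.inl (by have := hx.1; linarith))).continuousWithinAt)
    (fun x hx => Real.hasDerivAt_rpow_const (Or.inl (by have := hx.1; linarith)))
  have hba : 0 < b - a := by linarith
  rw [eq_div_iff hba.ne'] at hc2
  rw [← hc2]
  apply mul_le_mul_of_nonneg_right _ hba.le
  apply mul_le_mul_of_nonneg_left _ hρ.le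
  have hc0 : 0 < c := by linarith [hc.1]
  rcases le_or_gt 1 ρ with h | h
  · calc κ ^ ρ * Z ^ (ρ - 1) ≤ κ ^ (ρ - 1) * Z ^ (ρ - 1) := by
          apply mul_le_mul_of_nonneg_right _ (Real.rpow_nonneg hZ.le _)
          exact Real.rpow_le_rpow_of_exponent_ge hκ hκ1 (by linarith)
      _ = (κ * Z) ^ (ρ - 1) := (Real.mul_rpow hκ.le hZ.le).symm
      _ ≤ c ^ (ρ - 1) := Real.rpow_le_rpow (by positivity) (by linarith [hc.1]) (by linarith)
  · calc κ ^ ρ * Z ^ (ρ - 1) ≤ 1 * Z ^ (ρ - 1) := by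
          apply mul_le_mul_of_nonneg_right _ (Real.rpow_nonneg hZ.le _)
          exact Real.rpow_le_one hκ.le hκ1 hρ.le
      _ = Z ^ (ρ - 1) := one_mul _
      _ ≤ c ^ (ρ - 1) := Real.rpow_le_rpow_of_nonpos hc0 (by linarith [hc.2]) (by linarith)

theorem VF_lower {k J s : ℕ} (hk : 1 ≤ k) (hs : 1 ≤ s) {η τ κ : ℝ} (hη : 0 < η) (hκ : 0 < κ) (hκ1 : κ ≤ 1)
    (h1 : κ * ((3 : ℝ) ^ J) ^ k ≤ τ - η / 2) (h2 : τ + η / 2 ≤ ((3 : ℝ) ^ J) ^ k) :
    1 / 2 * Vs k s * ((s : ℝ) / k * κ ^ ((s : ℝ) / k)) * η * (((3 : ℝ) ^ J) ^ s / ((3 : ℝ) ^ J) ^ k) ≤ VF k J s η τ := by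
  have hX : (0 : ℝ) < 3 ^ J := by positivity
  have hk0 : (0 : ℝ) < k := by exact_mod_cast hk
  have hs0 : (0 : ℝ) < s := by exact_mod_cast hs
  have ht : 0 < τ - η / 2 := (by positivity : 0 < κ * ((3 : ℝ) ^ J) ^ k).trans_le h1
  set A : Set (Fin s → ℝ) := {u | ∑ i, u i ^ k < τ + η / 2} with hA
  set B : Set (Fin s → ℝ) := {u | ∑ i, u i ^ k < τ - η / 2} with hB
  have hAm : MeasurableSet A := measurableSet_lt (by fun_prop) measurable_const
  have hBm : MeasurableSet B := measurableSet_lt (by fun_prop) measurable_const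
  have hBA : B ⊆ A := fun u (hu : ∑ i, u i ^ k < τ - η / 2) => show ∑ i, u i ^ k < τ + η / 2 by linarith
  have hwc : Continuous fun u : Fin s → ℝ => w (((∑ i, u i ^ k) - τ) / η) := w_cont.comp (by fun_prop)
  have hi : Integrable (fun u : Fin s → ℝ => w (((∑ i, u i ^ k) - τ) / η)) (bm J s) := by
    refine Integrable.of_bound (C := 1) hwc.aestronglyMeasurable (Filter.Eventually.of_forall fun u => ?_)
    rw [Real.norm_of_nonneg (w_nonneg _)]
    exact w_le _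
  have h3 : 1 / 2 * (bm J s).real (A \ B) ≤ VF k J s η τ := by
    unfold VF
    rw [← integral_indicator_one (hAm.diff hBm), ← integral_const_mul]
    apply integral_mono (((integrable_const (1 : ℝ)).indicator (hAm.diff hBm)).const_mul _) hi
    intro u
    by_cases hu : u ∈ A \ B
    · simp only
      rw [Set.indicator_of_mem hu]
      have h4 : ∑ i, u i ^ k < τ + η / 2 := hu.1
      have h5 : τ - η / 2 ≤ ∑ i, u i ^ k := not_lt.1 hu.2
      simp only [Pi.one_apply, mul_one]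
      apply w_half
      have h6 : |∑ i, u i ^ k - τ| ≤ η / 2 := by
        rw [abs_le]
        constructor <;> linarith
      rw [abs_div, abs_of_pos hη, div_le_div_iff₀ hη (by norm_num)]
      linarith
    · simp only
      rw [Set.indicator_of_notMem hu, mul_zero]
      exact w_nonneg _
  have h4 : (bm J s).real (A \ B) = Vs k s * ((τ + η / 2) ^ ((s : ℝ) / k) - (τ - η / 2) ^ ((s : ℝ) / k)) := by
    rw [measureReal_sdiff hBA hBm, GF_eq hk (by linarith) h2, GF_eq hk ht (by linarith)]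
    ring
  have h5 := rpow_gap hκ hκ1 (by positivity : (0 : ℝ) < ((3 : ℝ) ^ J) ^ k) (by positivity : 0 < (s : ℝ) / k) h1 (by linarith) h2
  have h6 : (((3 : ℝ) ^ J) ^ k) ^ ((s : ℝ) / k - 1) = ((3 : ℝ) ^ J) ^ s / ((3 : ℝ) ^ J) ^ k := by
    rw [Real.rpow_sub (by positivity), Real.rpow_one, ← Real.rpow_natCast ((3 : ℝ) ^ J) k, ← Real.rpow_mul hX.le,
      mul_div_cancel₀ _ hk0.ne', Real.rpow_natCast, Real.rpow_natCast]
  rw [h6] at h5
  have hV := Vs_pos hk s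
  have h7 : τ + η / 2 - (τ - η / 2) = η := by ring
  rw [h7] at h5
  rw [h4] at h3
  calc 1 / 2 * Vs k s * ((s : ℝ) / k * κ ^ ((s : ℝ) / k)) * η * (((3 : ℝ) ^ J) ^ s / ((3 : ℝ) ^ J) ^ k)
      = 1 / 2 * (Vs k s * ((s : ℝ) / k * (κ ^ ((s : ℝ) / k) * (((3 : ℝ) ^ J) ^ s / ((3 : ℝ) ^ J) ^ k)) * η)) := by ring
    _ ≤ 1 / 2 * (Vs k s * ((τ + η / 2) ^ ((s : ℝ) / k) - (τ - η / 2) ^ ((s : ℝ) / k))) := by gcongr
    _ ≤ _ := h3

end Pool.Agent.K7.H55.MS
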