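import Mathlib
import Pool.Agent.K7.H55.MS.Rat
import Pool.Agent.K7.H55.MS.Vl
import Pool.Agent.K7.H74.WS.SlF

set_option autoImplicit false

/-! Honest and shifted powers: the theorem. -/

namespace Pool.Agent.K7.H55.MS
open Finset MeasureTheory Filter Pool.Agent.K7.H74.WS

lemma summ_one (n : ℕ) {δ : ℝ} (hδ : 0 < δ) : Summable fun J : ℕ => ((J : ℝ) + 1) ^ n * ((3 : ℝ) ^ J) ^ (-δ) := by
  have h := pow_geo (ρ := (3 : ℝ) ^ (-δ)) (Real.rpow_pos_of_pos (by norm_num) _)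
    (Real.rpow_lt_one_of_one_lt_of_neg (by norm_num) (by linarith)) n
  refine h.congr fun J => ?_
  rw [X_pow]

lemma card_pos' {k u : ℕ} {l c C Y : ℝ} {A : Finset ℕ} (hc : 0 < c) (hY : 0 < Y) (H : Good k u l c C Y A) : (0 : ℝ) < A.card := by
  have h1 := H.many
  have h2 : 0 < c * Y ^ k := by positivity
  rcases (Nat.cast_nonneg A.card : (0 : ℝ) ≤ A.card).lt_or_eq with h | h
  · exact h
  · rw [← h, zero_mul] at h1
    linarith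

theorem ae_small (m r u : ℕ) {l c C c0 : ℝ} (hl0 : 0 ≤ l) (hl : 2 * l ≤ 1) (hs : 2 * ((m : ℝ) + 2) * l < r + 1) (hc : 0 < c) (hC : 0 < C)
    (hc0 : 0 < c0) {A : ℕ → Finset ℕ} {J0 : ℕ} (hA : ∀ J, J0 ≤ J → Good (m + 2) u l c C ((3 : ℝ) ^ J / 9) (A J)) :
    ∀ᵐ ξ ∂(cube (r + 1)), ∀ᶠ J : ℕ in atTop, GE (m + 2) J (r + 1) (1 / 2) (A J) ξ <
      c0 * (((A J).card : ℝ) ^ 2 * (((3 : ℝ) ^ J) ^ (r + 1) / ((3 : ℝ) ^ J) ^ (m + 2))) := by
  obtain ⟨B, hB, H⟩ := ratio m r u hl0 hl hc hC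
  set F : ℕ → ℝ := fun J => ((A J).card : ℝ) ^ 2 * (((3 : ℝ) ^ J) ^ (r + 1) / ((3 : ℝ) ^ J) ^ (m + 2)) with hF
  set Q : ℕ → ℝ := fun J => ((J : ℝ) + 1) ^ (2 * (r + 1)) * (((3 : ℝ) ^ J) ^ (-(1 / 8) : ℝ) + ((3 : ℝ) ^ J) ^ (-(((r : ℝ) + 1) / (8 * (m + 2))))
          + ((3 : ℝ) ^ J) ^ (-(((r : ℝ) + 1) / 2 - (m + 2) * l))) with hQ
  have hFp : ∀ J, J0 ≤ J → 0 < F J := by
    intro J hJ
    have := card_pos' hc (by positivity) (hA J hJ)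
    rw [hF]
    positivity
  have hQs : Summable Q := by
    have s1 := summ_one (2 * (r + 1)) (δ := 1 / 8) (by norm_num)
    have s2 := summ_one (2 * (r + 1)) (δ := ((r : ℝ) + 1) / (8 * (m + 2))) (by positivity)
    have s3 := summ_one (2 * (r + 1)) (δ := ((r : ℝ) + 1) / 2 - (m + 2) * l) (by linarith)
    refine ((s1.add s2).add s3).congr fun J => ?_
    rw [hQ]
    simp only
    ring
  have h1 := bc (s := r + 1) (f := fun j ξ => GE (m + 2) (j + J0) (r + 1) (1 / 2) (A (j + J0)) ξ) (fun j ξ => GE_nonneg _ _ _ _ _ _)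
    (fun j => GE_int _ _ _ _ _) (a := fun j => B * Q (j + J0) * F (j + J0)) (t := fun j => c0 * F (j + J0))
    (fun j => H (j + J0) (A (j + J0)) (hA _ (by omega))) (fun j => mul_pos hc0 (hFp _ (by omega))) (by
      have s4 : Summable fun j : ℕ => B / c0 * Q (j + J0) := ((summable_nat_add_iff J0).2 hQs).mul_left _
      refine s4.congr fun j => ?_
      have := hFp (j + J0) (by omega)
      field_simp)
  filter_upwards [h1] with ξ hξ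
  rw [eventually_atTop] at hξ ⊢
  obtain ⟨j1, hj1⟩ := hξ
  refine ⟨j1 + J0, fun J hJ => ?_⟩
  have h2 := hj1 (J - J0) (by omega)
  rw [show J - J0 + J0 = J by omega] at h2
  exact h2

lemma pos_of_sum {ι : Type} {S : Finset ι} {f : ι → ℝ} (h : 0 < ∑ i ∈ S, f i) : ∃ i ∈ S, 0 < f i := by
  by_contra h1
  push Not at h1
  have := sum_nonpos h1
  linarith

/-- the deterministic part -/
theorem det {k s u J n : ℕ} (hk : 2 ≤ k) (hs : 1 ≤ s) {l c C : ℝ} (hc : 0 < c) {A : Finset ℕ} (hA : Good k u l c C ((3 : ℝ) ^ J / 9) A)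
    {ξ : Fin s → ℝ} (hξ : ∀ i, 0 ≤ ξ i)
    (hG : GE k J s (1 / 2) A ξ < (1 / 2 * Vs k s * ((s : ℝ) / k * (1 / (9 * 3 ^ k)) ^ ((s : ℝ) / k)) * (1 / 2)) *
      ((A.card : ℝ) ^ 2 * (((3 : ℝ) ^ J) ^ s / ((3 : ℝ) ^ J) ^ k)))
    (hJ2 : 2 ≤ J) (hn1 : ((3 : ℝ) ^ J) ^ k / 3 ^ k < 2 * (n + 1)) (hn2 : 2 * ((n : ℝ) + 1) ≤ ((3 : ℝ) ^ J) ^ k) :
    ∃ (x y : Fin u → ℕ) (z : Fin s → ℕ), n = ∑ j, x j ^ k + ∑ j, y j ^ k + ⌊∑ i, ((z i : ℝ) + ξ i) ^ k⌋₊ := by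
  have hk1 : 1 ≤ k := by omega
  set X : ℝ := (3 : ℝ) ^ J with hX
  have hX0 : 0 < X := by positivity
  set c0 : ℝ := 1 / 2 * Vs k s * ((s : ℝ) / k * (1 / (9 * 3 ^ k)) ^ ((s : ℝ) / k)) * (1 / 2) with hc0
  -- sizes
  have h9 : (3 : ℝ) ^ k * 9 ≤ 9 ^ k := by
    have e1 : (9 : ℝ) ^ k = 3 ^ k * 3 ^ k := by rw [← mul_pow]; norm_num
    have e2 : (9 : ℝ) ≤ 3 ^ k := by
      calc (9 : ℝ) = 3 ^ 2 := by norm_num
        _ ≤ 3 ^ k := pow_le_pow_right₀ (by norm_num) hk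
    rw [e1]
    gcongr
  have hale : ∀ a ∈ A, (a : ℝ) ≤ X ^ k / 3 ^ k / 9 := by
    intro a ha
    refine (hA.le a ha).trans ?_
    rw [div_pow, div_div]
    exact div_le_div_of_nonneg_left (by positivity) (by positivity) h9
  have hbig : 9 ≤ X ^ k / 3 ^ k := by
    rw [← div_pow]
    have e1 : (3 : ℝ) ≤ X / 3 := by
      rw [le_div_iff₀ (by norm_num), hX]
      calc (3 : ℝ) * 3 = 3 ^ 2 := by norm_num
        _ ≤ 3 ^ J := pow_le_pow_right₀ (by norm_num) hJ2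
    calc (9 : ℝ) = 3 ^ 2 := by norm_num
      _ ≤ 3 ^ k := pow_le_pow_right₀ (by norm_num) hk
      _ ≤ (X / 3) ^ k := pow_le_pow_left₀ (by norm_num) e1 _
  set R : ℝ := X ^ k / 3 ^ k with hR
  -- the lower bound of the main term
  have hV : ∀ a ∈ A, ∀ b ∈ A, c0 * (X ^ s / X ^ k) ≤ VF k J s (1 / 2) (((n : ℝ) + 1 / 2) - a - b) := by
    intro a ha b hb
    have a1 := hale a ha
    have b1 := hale b hb
    have a0 : (0 : ℝ) ≤ a := Nat.cast_nonneg _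
    have b0 : (0 : ℝ) ≤ b := Nat.cast_nonneg _
    apply VF_lower hk1 hs (by norm_num : (0 : ℝ) < 1 / 2) (κ := 1 / (9 * 3 ^ k)) (by positivity)
    · rw [div_le_one (by positivity)]
      have : (1 : ℝ) ≤ 3 ^ k := one_le_pow₀ (by norm_num)
      linarith
    · have e1 : 1 / (9 * 3 ^ k) * X ^ k = R / 9 := by rw [hR]; field_simp
      rw [e1]
      linarith
    · linarith
  have hcard := card_pos' hc (by positivity) hA
  have hsum : (A.card : ℝ) ^ 2 * (c0 * (X ^ s / X ^ k)) ≤ ∑ a ∈ A, ∑ b ∈ A, VF k J s (1 / 2) (((n : ℝ) + 1 / 2) - a - b) := by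
    have e1 : (A.card : ℝ) ^ 2 * (c0 * (X ^ s / X ^ k)) = ∑ a ∈ A, ∑ b ∈ A, c0 * (X ^ s / X ^ k) := by
      rw [sum_const, sum_const, nsmul_eq_mul, nsmul_eq_mul]
      ring
    rw [e1]
    exact sum_le_sum fun a ha => sum_le_sum fun b hb => hV a ha b hb
  have herr := (abs_le.1 (sum_le_GE k J s (1 / 2) ((n : ℝ) + 1 / 2) A ξ)).1
  simp_rw [sum_sub_distrib] at herr
  have hpos : 0 < ∑ a ∈ A, ∑ b ∈ A, RF k J s (1 / 2) (((n : ℝ) + 1 / 2) - a - b) ξ := by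
    have e1 : c0 * ((A.card : ℝ) ^ 2 * (X ^ s / X ^ k)) = (A.card : ℝ) ^ 2 * (c0 * (X ^ s / X ^ k)) := by ring
    rw [e1] at hG
    linarith
  obtain ⟨a, ha, ha2⟩ := pos_of_sum hpos
  obtain ⟨b, hb, hb2⟩ := pos_of_sum ha2
  unfold RF at hb2
  obtain ⟨z, hz, hz2⟩ := pos_of_sum hb2
  obtain ⟨x, hx⟩ := hA.rep a ha
  obtain ⟨y, hy⟩ := hA.rep b hb
  refine ⟨x, y, z, ?_⟩
  rw [← hx, ← hy]
  have h1 : |(sp k ξ z - ((n : ℝ) + 1 / 2 - a - b)) / (1 / 2)| < 1 := by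
    by_contra h
    push Not at h
    rw [w_zero h] at hz2
    exact lt_irrefl _ hz2
  rw [abs_div, abs_of_pos (by norm_num : (0 : ℝ) < 1 / 2), div_lt_one (by norm_num), abs_lt] at h1
  have a1 := hale a ha
  have b1 := hale b hb
  have hab : a + b ≤ n := by
    have : ((a + b : ℕ) : ℝ) < n + 1 := by push_cast; linarith
    have : a + b < n + 1 := by exact_mod_cast this
    omega
  have hfl : ⌊∑ i, ((z i : ℝ) + ξ i) ^ k⌋₊ = n - (a + b) := by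
    have e1 : ∑ i, ((z i : ℝ) + ξ i) ^ k = sp k ξ z := rfl
    rw [e1, Nat.floor_eq_iff (sp_nonneg hξ z), Nat.cast_sub hab]
    push_cast
    constructor <;> linarith [h1.1, h1.2]
  rw [hfl]
  omega

/-- honest and shifted powers -/
theorem main {k s u : ℕ} (hk : 2 ≤ k) (hs : 1 ≤ s) (hl : 2 * (1 - 1 / (k : ℝ)) ^ u ≤ 1) (hs2 : 2 * k * (1 - 1 / (k : ℝ)) ^ u < s) :
    ∀ᵐ ξ ∂(cube s), (∀ i, 0 ≤ ξ i) → ∃ n0 : ℕ, ∀ n : ℕ, n0 ≤ n →
      ∃ (x y : Fin u → ℕ) (z : Fin s → ℕ), n = ∑ j, x j ^ k + ∑ j, y j ^ k + ⌊∑ i, ((z i : ℝ) + ξ i) ^ k⌋₊ := by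
  classical
  obtain ⟨m, rfl⟩ : ∃ m, k = m + 2 := ⟨k - 2, by omega⟩
  obtain ⟨r, rfl⟩ : ∃ r, s = r + 1 := ⟨s - 1, by omega⟩
  obtain ⟨c, C, Y0, hc, hC, hY0, H⟩ := good hk u
  set l : ℝ := (1 - 1 / ((m + 2 : ℕ) : ℝ)) ^ u with hldef
  have hl0 : 0 ≤ l := by
    apply pow_nonneg
    rw [sub_nonneg, div_le_one (by positivity)]
    push_cast
    have : (0 : ℝ) ≤ m := Nat.cast_nonneg _
    linarith
  -- the sets
  obtain ⟨J0, hJ0⟩ := pow_unbounded_of_one_lt (9 * Y0) (by norm_num : (1 : ℝ) < 3)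
  have hex : ∀ J, J0 ≤ J → ∃ A, Good (m + 2) u l c C ((3 : ℝ) ^ J / 9) A := by
    intro J hJ
    apply H
    rw [le_div_iff₀ (by norm_num)]
    have : (3 : ℝ) ^ J0 ≤ 3 ^ J := pow_le_pow_right₀ (by norm_num) hJ
    linarith
  set A : ℕ → Finset ℕ := fun J => if h : J0 ≤ J then (hex J h).choose else ∅ with hAdef
  have hA : ∀ J, J0 ≤ J → Good (m + 2) u l c C ((3 : ℝ) ^ J / 9) (A J) := by
    intro J hJ
    rw [hAdef]
    simp only [hJ, dif_pos]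
    exact (hex J hJ).choose_spec
  set c0 : ℝ := 1 / 2 * Vs (m + 2) (r + 1) * (((r + 1 : ℕ) : ℝ) / ((m + 2 : ℕ) : ℝ) * (1 / (9 * 3 ^ (m + 2))) ^ (((r + 1 : ℕ) : ℝ) / ((m + 2 : ℕ) : ℝ))) * (1 / 2)
    with hc0
  have hc0p : 0 < c0 := by
    have := Vs_pos (k := m + 2) (by omega) (r + 1)
    have h2 : (0 : ℝ) < (1 / (9 * 3 ^ (m + 2))) ^ (((r + 1 : ℕ) : ℝ) / ((m + 2 : ℕ) : ℝ)) := Real.rpow_pos_of_pos (by positivity) _
    positivity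
  have h1 := ae_small m r u (c0 := c0) hl0 hl (by push_cast at hs2; exact hs2) hc hC hc0p hA
  filter_upwards [h1] with ξ hξ hξ0
  rw [eventually_atTop] at hξ
  obtain ⟨J1, hJ1⟩ := hξ
  set J2 := max (max J0 J1) 2 with hJ2
  refine ⟨(3 ^ J2) ^ (m + 2), fun n hn => ?_⟩
  -- the choice of `J`
  have hexJ : ∃ J : ℕ, 2 * (n + 1) ≤ (3 ^ J) ^ (m + 2) := by
    obtain ⟨J, hJ⟩ := pow_unbounded_of_one_lt (2 * (n + 1)) (by norm_num : 1 < 3)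
    refine ⟨J, hJ.le.trans ?_⟩
    calc 3 ^ J = (3 ^ J) ^ 1 := (pow_one _).symm
      _ ≤ (3 ^ J) ^ (m + 2) := Nat.pow_le_pow_right (by positivity) (by omega)
  set J := Nat.find hexJ with hJdef
  have hJs := Nat.find_spec hexJ
  rw [← hJdef] at hJs
  have hJbig : J2 < J := by
    by_contra h
    push Not at h
    have h3 : (3 ^ J) ^ (m + 2) ≤ (3 ^ J2) ^ (m + 2) := Nat.pow_le_pow_left (Nat.pow_le_pow_right (by norm_num) h) _
    omega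
  have hJpred : (3 ^ (J - 1)) ^ (m + 2) < 2 * (n + 1) := by
    have := Nat.find_min hexJ (m := J - 1) (by omega)
    omega
  have hJ0' : J0 ≤ J := ((le_max_left _ _).trans (le_max_left _ _)).trans hJbig.le
  have hJ1' : J1 ≤ J := ((le_max_right _ _).trans (le_max_left _ _)).trans hJbig.le
  have hJ2' : 2 ≤ J := (le_max_right _ _).trans hJbig.le
  refine det hk hs hc (hA J hJ0') hξ0 (hJ1 J hJ1') hJ2' ?_ ?_
  · have h3 : ((3 : ℝ) ^ (J - 1)) ^ (m + 2) < 2 * (n + 1) := by exact_mod_cast hJpred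
    have h4 : ((3 : ℝ) ^ J) ^ (m + 2) / 3 ^ (m + 2) = ((3 : ℝ) ^ (J - 1)) ^ (m + 2) := by
      rw [← div_pow]
      congr 1
      have : (3 : ℝ) ^ J = 3 ^ (J - 1) * 3 := by rw [← pow_succ]; congr 1; omega
      rw [this]
      field_simp
    rw [h4]
    exact h3
  · exact_mod_cast hJs

end Pool.Agent.K7.H55.MS
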